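import Pool.Agent.H20.TK.Upp

/-!
# [H20 TK NLF] THEOREM K: functions which are linear for large degrees; the bounds for surfaces
-/

set_option autoImplicit false

open Filter

namespace Pool.Agent.H20.TK

variable {L : Type} [AddCommGroup L] {H : L} {a b : L →+ ℝ} {A : Set L}

theorem pl_add {Q Q' : L → ℝ} (h : PL H Q) (h' : PL H Q') : PL H (fun m => Q m + Q' m) := by
  intro m
  obtain ⟨P, hP⟩ := h m
  obtain ⟨P', hP'⟩ := h' m
  refine ⟨P + P', fun n => ?_⟩
  show Q (m + n • H) + Q' (m + n • H) = _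
  rw [Polynomial.eval_add, hP, hP']

theorem pl_shift {Q : L → ℝ} (h : PL H Q) (c : L) : PL H (fun m => Q (m + c)) := by
  intro m
  obtain ⟨P, hP⟩ := h (m + c)
  refine ⟨P, fun n => ?_⟩
  have e : m + n • H + c = m + c + n • H := by abel
  show Q (m + n • H + c) = _
  rw [e, hP]

theorem pl_lin (l : L →+ ℤ) (c : ℝ) : PL H (fun m => (l m : ℝ) + c) := by
  intro m
  refine ⟨Polynomial.C ((l m : ℝ) + c) + Polynomial.C (l H : ℝ) * Polynomial.X, fun n => ?_⟩
  simp only [map_add, map_zsmul, Polynomial.eval_add, Polynomial.eval_C, Polynomial.eval_mul, Polynomial.eval_X,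
    smul_eq_mul]
  push_cast
  ring

theorem ev_add {f g Q Q' : L → ℝ} (h : Ev H f Q) (h' : Ev H g Q') :
    Ev H (fun m => f m + g m) (fun m => Q m + Q' m) := by
  intro m
  obtain ⟨n, hn⟩ := h m
  obtain ⟨n', hn'⟩ := h' m
  refine ⟨n + n', fun i hi => ?_⟩
  show f _ + g _ = Q _ + Q' _
  rw [hn i (by omega), hn' i (by omega)]

theorem ev_shift {f Q : L → ℝ} (h : Ev H f Q) (c : L) : Ev H (fun m => f (m + c)) (fun m => Q (m + c)) := by
  intro m
  obtain ⟨n, hn⟩ := h (m + c)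
  refine ⟨n, fun i hi => ?_⟩
  have e : m + i • H + c = m + c + i • H := by abel
  show f (m + i • H + c) = Q (m + i • H + c)
  rw [e, hn i hi]

theorem sf_add {g g' Q Q' : L → ℝ} (h : SF H a b g Q) (h' : SF H a b g' Q') :
    SF H a b (fun m => g m + g' m) (fun m => Q m + Q' m) where
  ev := ev_add h.ev h'.ev
  pol := pl_add h.pol h'.pol
  le := by
    filter_upwards [h.le, h'.le] with m h1 h2
    exact add_le_add h1 h2

theorem sf_shift {g Q : L → ℝ} (h : SF H a b g Q) (c : L) :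
    SF H a b (fun m => g (m + c)) (fun m => Q (m + c)) where
  ev := ev_shift h.ev c
  pol := pl_shift h.pol c
  le := (fl_shift a b c).eventually h.le

theorem sf_sum {ι : Type} (s : Finset ι) (g Q : ι → L → ℝ) (h : ∀ i ∈ s, SF H a b (g i) (Q i)) :
    SF H a b (fun m => ∑ i ∈ s, g i m) (fun m => ∑ i ∈ s, Q i m) := by
  classical
  induction s using Finset.induction_on with
  | empty =>
    simp only [Finset.sum_empty]
    refine ⟨fun m => ⟨0, fun n _ => rfl⟩, fun m => ⟨0, fun n => by simp⟩, Filter.Eventually.of_forall fun m => le_rfl⟩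
  | insert i s hi ih =>
    have h1 := sf_add (h i (Finset.mem_insert_self i s)) (ih fun j hj => h j (Finset.mem_insert_of_mem hj))
    simpa only [Finset.sum_insert hi] using h1

theorem nl_zero : NL A (fun _ => 0) :=
  ⟨∅, 0, 0, 0, fun δ hδ => absurd hδ (Finset.notMem_empty δ), fun m _ => le_rfl, fun m _ => by simp⟩

theorem nl_const (c : ℝ) : NL A (fun _ => c) :=
  ⟨∅, 0, 0, c, fun δ hδ => absurd hδ (Finset.notMem_empty δ), fun m _ => le_rfl, fun m _ => by simp⟩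

theorem nl_add {g g' : L → ℝ} (h : NL A g) (h' : NL A g') : NL A (fun m => g m + g' m) := by
  classical
  obtain ⟨F, K, l, c, h1, h2, h3⟩ := h
  obtain ⟨F', K', l', c', h1', h2', h3'⟩ := h'
  refine ⟨F ∪ F', max K K', l + l', c + c', fun δ hδ => ?_, fun m hm => ?_, fun m hm => ?_⟩
  · rcases Finset.mem_union.1 hδ with h4 | h4
    · exact h1 δ h4
    · exact h1' δ h4
  · exact add_nonneg (h2 m hm) (h2' m hm)
  · show g m + g' m = _
    rw [h3 m fun δ hδ => (le_max_left _ _).trans (hm δ (Finset.mem_union_left _ hδ)),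
      h3' m fun δ hδ => (le_max_right _ _).trans (hm δ (Finset.mem_union_right _ hδ)), AddMonoidHom.add_apply]
    push_cast
    ring

theorem nl_shift {g : L → ℝ} (h : NL A g) (d : L) : NL A (fun m => g (m + d)) := by
  classical
  obtain ⟨F, K, l, c, h1, h2, h3⟩ := h
  obtain ⟨N, hN⟩ : ∃ N : ℤ, ∀ δ ∈ F, -δ d ≤ N := by
    refine ⟨∑ δ ∈ F, |δ d|, fun δ hδ => (neg_le_abs _).trans ?_⟩
    exact Finset.single_le_sum (f := fun δ : L →+ ℤ => |δ d|) (fun i _ => abs_nonneg _) hδ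
  refine ⟨F, K + N, l, l d + c, h1, h2, fun m hm => ?_⟩
  show g (m + d) = _
  rw [h3 (m + d) fun δ hδ => by
    have e1 := hm δ hδ
    have e2 := hN δ hδ
    rw [map_add]
    omega, map_add]
  push_cast
  ring

theorem nl_sum {ι : Type} (s : Finset ι) (g : ι → L → ℝ) (h : ∀ i ∈ s, NL A (g i)) :
    NL A (fun m => ∑ i ∈ s, g i m) := by
  classical
  induction s using Finset.induction_on with
  | empty =>
    simp only [Finset.sum_empty]
    exact nl_zero
  | insert i s hi ih =>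
    have h1 := nl_add (h i (Finset.mem_insert_self i s)) (ih fun j hj => h j (Finset.mem_insert_of_mem hj))
    simpa only [Finset.sum_insert hi] using h1

/-- a function which is linear for large degrees is linear in the filter -/
theorem nl_fl (hH : H ∈ A) (hp : Pt H A a b) {g : L → ℝ} (h : NL A g) :
    ∃ (l : L →+ ℤ) (c : ℝ), (∀ m ∈ A, 0 ≤ l m) ∧ ∀ᶠ m in FL a b, g m = l m + c := by
  obtain ⟨F, K, l, c, h1, h2, h3⟩ := h
  refine ⟨l, c, h2, ?_⟩
  have h4 : ∀ᶠ m in FL a b, ∀ δ ∈ F, K ≤ δ m := by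
    rw [Finset.eventually_all]
    intro δ hδ
    obtain ⟨β, hβ, hd⟩ := hp δ (h1 δ hδ)
    have hδH : (0 : ℝ) < δ H := by exact_mod_cast h1 δ hδ H hH
    filter_upwards [(fl_lin a b hδH hβ).eventually (eventually_ge_atTop (K : ℝ))] with m hm
    rw [← hd] at hm
    exact_mod_cast hm
  filter_upwards [h4] with m hm
  exact h3 m hm

theorem nl_sf (hc : Crd H a b) (hH : H ∈ A) (hp : Pt H A a b) {g : L → ℝ} (h : NL A g) :
    ∃ (l : L →+ ℤ) (c : ℝ), (∀ m ∈ A, 0 ≤ l m) ∧ SF H a b g (fun m => l m + c) := by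
  obtain ⟨l, c, h1, h2⟩ := nl_fl hH hp h
  refine ⟨l, c, h1, fun m => ?_, pl_lin l c, ?_⟩
  · obtain ⟨n₀, hn⟩ := eventually_atTop.1 ((fl_line hc m).eventually h2)
    exact ⟨n₀, fun n hn' => hn n hn'⟩
  · filter_upwards [h2] with m hm
    exact hm.le

theorem tf_low (hc : Crd H a b) (hH : H ∈ A) (hp : Pt H A a b) {f Q : L → ℝ} (h : TF H A f Q) :
    ∀ᶠ m in FL a b, Q m ≤ f m := by
  obtain ⟨g, hg, hs⟩ := h.st H h.hH
  obtain ⟨l, c, -, h1⟩ := nl_sf hc hH hp hg
  exact low hc h.ev h.pol h1 hs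

theorem tf_upp (hc : Crd H a b) (hH : H ∈ A) (hp : Pt H A a b) {f Q : L → ℝ} (h : TF H A f Q)
    (hq : ∀ S ∈ FL a b, ∃ G ∈ S, a G < 0 ∧ 0 < b G ∧ 0 < Q G) : SF H a b f Q := by
  refine ⟨h.ev, h.pol, ?_⟩
  obtain ⟨G, hG, haG, hbG, hQG⟩ := hq _ (tf_low hc hH hp h)
  obtain ⟨g, hg, hs⟩ := h.st G (hQG.trans_le hG)
  obtain ⟨l, c, -, h1⟩ := nl_sf hc hH hp hg
  exact upp hc haG hbG h.ev h.pol h1 hs

/-- the polynomial of the step -/
theorem tf_step (hc : Crd H a b) (hH : H ∈ A) (hp : Pt H A a b) {f Q : L → ℝ} (h : TF H A f Q) {G : L}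
    (hG : 0 < f G) : ∃ (l : L →+ ℤ) (c : ℝ), (∀ m ∈ A, 0 ≤ l m) ∧ ∀ m, Q m = Q (m - G) + (l m + c) := by
  obtain ⟨g, hg, hs⟩ := h.st G hG
  obtain ⟨l, c, hl, h1⟩ := nl_sf hc hH hp hg
  exact ⟨l, c, hl, fun m => stp_id h.ev h.pol h1.ev h1.pol hs m⟩

end Pool.Agent.H20.TK
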