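import Pool.Agent.H83.TU.NV
import Pool.Agent.H57.KM.Basic
import Pool.Agent.H20.TK.NLF

/-!
# [H20 TK Tau] THEOREM K: the numerical hypothesis (CY) and its polynomials

* `tau q`: a symmetric trilinear form on `ℝ²` given by four coefficients (`tau D D D = D³`).
* `chi q l c u = tau u u u / 6 + l u + c`: a polynomial of degree `3` without quadratic part.
* `chT q l c t u = chi u - chi (u - t)`: the polynomial of a surface with class `t`.
* `CY ν q l c`: `chi` is the Hilbert polynomial of all divisors, and `l` is positive on the ample classes.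
-/

set_option autoImplicit false

open Filter

namespace Pool.Agent.H20.TK

open Pool.Agent.H57.KM Pool.Agent.H54.RV Pool.Agent.H83.TU

/-- a symmetric trilinear form -/
def tau (q : Fin 4 → ℝ) (u w t : V 2) : ℝ :=
  6 * q 0 * (u 0 * w 0 * t 0) + 2 * q 1 * (u 0 * w 0 * t 1 + u 0 * w 1 * t 0 + u 1 * w 0 * t 0) +
    2 * q 2 * (u 0 * w 1 * t 1 + u 1 * w 0 * t 1 + u 1 * w 1 * t 0) + 6 * q 3 * (u 1 * w 1 * t 1)

/-- the Hilbert polynomial -/
noncomputable def chi (q : Fin 4 → ℝ) (l : V 2 →ₗ[ℝ] ℝ) (c : ℝ) (u : V 2) : ℝ := tau q u u u / 6 + l u + c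

/-- the polynomial of a surface with the class `t` -/
noncomputable def chT (q : Fin 4 → ℝ) (l : V 2 →ₗ[ℝ] ℝ) (c : ℝ) (t u : V 2) : ℝ := chi q l c u - chi q l c (u - t)

variable (q : Fin 4 → ℝ) (l : V 2 →ₗ[ℝ] ℝ) (c : ℝ)

/-- `tau u u u / 6` is the cubic form with the coefficients `q` -/
theorem tau_cub (u : V 2) :
    tau q u u u / 6 = q 0 * u 0 ^ 3 + q 1 * u 0 ^ 2 * u 1 + q 2 * u 0 * u 1 ^ 2 + q 3 * u 1 ^ 3 := by
  unfold tau
  ring

theorem tau_comm (u w t : V 2) : tau q u w t = tau q w u t := by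
  unfold tau
  ring

theorem tau_comm' (u w t : V 2) : tau q u w t = tau q u t w := by
  unfold tau
  ring

theorem tau_add (u u' w t : V 2) : tau q (u + u') w t = tau q u w t + tau q u' w t := by
  unfold tau
  simp only [Pi.add_apply]
  ring

theorem tau_sub (u u' w t : V 2) : tau q (u - u') w t = tau q u w t - tau q u' w t := by
  unfold tau
  simp only [Pi.sub_apply]
  ring

theorem tau_smul (r : ℝ) (u w t : V 2) : tau q (r • u) w t = r * tau q u w t := by
  unfold tau
  simp only [Pi.smul_apply, smul_eq_mul]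
  ring

theorem tau_add2 (u u' w t : V 2) : tau q w (u + u') t = tau q w u t + tau q w u' t := by
  rw [tau_comm, tau_add, tau_comm q u, tau_comm q u']

theorem tau_sub2 (u u' w t : V 2) : tau q w (u - u') t = tau q w u t - tau q w u' t := by
  rw [tau_comm, tau_sub, tau_comm q u, tau_comm q u']

theorem tau_smul2 (r : ℝ) (u w t : V 2) : tau q w (r • u) t = r * tau q w u t := by
  rw [tau_comm, tau_smul, tau_comm q u]

theorem tau_add3 (u u' w t : V 2) : tau q w t (u + u') = tau q w t u + tau q w t u' := by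
  rw [tau_comm', tau_add2, tau_comm' q w u, tau_comm' q w u']

theorem tau_sub3 (u u' w t : V 2) : tau q w t (u - u') = tau q w t u - tau q w t u' := by
  rw [tau_comm', tau_sub2, tau_comm' q w u, tau_comm' q w u']

theorem tau_smul3 (r : ℝ) (u w t : V 2) : tau q w t (r • u) = r * tau q w t u := by
  rw [tau_comm', tau_smul2, tau_comm' q w u]

theorem chT_eq (t u : V 2) :
    chT q l c t u = tau q u u t / 2 - tau q u t t / 2 + tau q t t t / 6 + l t := by
  unfold chT chi
  rw [map_sub]
  unfold tau
  simp only [Pi.sub_apply]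
  ring

/-- the step of the polynomial of a surface -/
theorem chT_sub (t u g : V 2) :
    chT q l c t u - chT q l c t (u - g) = tau q u g t - tau q g g t / 2 - tau q g t t / 2 := by
  rw [chT_eq, chT_eq]
  unfold tau
  simp only [Pi.sub_apply]
  ring

variable {k K : Type} [Field k] [Field K] [Algebra k K] {X : Mod k K}

/-- the numerical hypothesis: the Hilbert polynomial has no quadratic part (`K ≡ 0`) and its linear part is positive on
the ample classes (`c_2 ≠ 0`) -/
structure CY (ν : Cart X →* Multiplicative (Fin 2 → ℤ)) : Prop where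
  ev : ∀ D A : Cart X, Ample A → ∃ n₀ : ℕ, ∀ n : ℕ, n₀ ≤ n → (h0 (D * A ^ n) 1 : ℝ) = chi q l c (cv ν (D * A ^ n))
  pos : ∀ A : Cart X, Ample A → 0 < l (cv ν A)

end Pool.Agent.H20.TK
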