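import Pool.Agent.H20.TK.Van
import Pool.Agent.H36.TK.Four
import Pool.Agent.H24.TK.Frm
import Pool.Agent.H83.TU.Fin

/-!
# [H20 TK Asm] THEOREM K: an irrational boundary ray of the nef cone is impossible

`irr_false`: if the Hilbert polynomial has no quadratic part and its linear part is positive on the ample classes, then
every boundary ray of the nef cone is rational.  `k0`: the nef cone is generated by two integral classes.
-/

set_option autoImplicit false

open Filter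

namespace Pool.Agent.H20.TK

open Pool.Agent.H57.KM Pool.Agent.H54.RV Pool.Agent.H83.TU Pool.Agent.H83.TK Pool.Agent.H39.TK Pool.Agent.H32.TK

variable {k K : Type} [Field k] [Field K] [Algebra k K] {X : Mod k K}
  {ν : Cart X →* Multiplicative (Fin 2 → ℤ)} {H : Fin 2 → ℤ} {b : Fin 2 → Cart X} {p : V 2} {x y : V 2 →ₗ[ℝ] ℝ}
  {q : Fin 4 → ℝ} {l : V 2 →ₗ[ℝ] ℝ} {c : ℝ}

/-- the group of the divisors `bas b m` -/
noncomputable def basG (b : Fin 2 → Cart X) : Subgroup (Cart X) where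
  carrier := Set.range (bas b)
  mul_mem' := by
    rintro _ _ ⟨m, rfl⟩ ⟨n, rfl⟩
    exact ⟨m + n, bas_add b m n⟩
  one_mem' := ⟨0, bas_zero b⟩
  inv_mem' := by
    rintro _ ⟨m, rfl⟩
    exact ⟨-m, bas_neg b m⟩

/-- a multiple of an ample divisor without base points -/
theorem bpf_exists (hX : IsVar X) (A : Cart X) (hA : Ample A) : ∃ m : ℕ, 1 ≤ m ∧ Bpf (A ^ m) := by
  obtain ⟨m, hm, r, t, hF⟩ := Pool.Agent.H24.TK.exists_fr hX A hA
  refine ⟨m, hm, fun x => ?_⟩
  obtain ⟨j, hj⟩ := hF.cov x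
  exact ⟨t j, hF.sec j, hj⟩

/-- from the filter to a region, for the divisors of the group -/
theorem fl_basG {ν : Cart X →* Multiplicative (Fin 2 → ℤ)} (hb : ∀ i, cv ν (b i) = Pi.single i 1)
    {P : Cart X → Prop} (h : ∀ᶠ m in FL (cof y) (cof x), P (bas b m)) :
    ∃ δ > (0 : ℝ), ∃ X₀ : ℝ, ∀ W ∈ basG b, X₀ ≤ x (cv ν W) → |y (cv ν W)| ≤ δ * x (cv ν W) → P W := by
  obtain ⟨δ, hδ, X₀, h1⟩ := fl_reg h
  refine ⟨δ, hδ, X₀, ?_⟩
  rintro _ ⟨m, rfl⟩ h2 h3
  rw [cv_bas hb] at h2 h3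
  exact h1 m h2 h3

theorem spr_not_eff {ζ : X.P} {S : Cart X} (hS : SPr X ζ S) : ¬ Effective S⁻¹ := by
  intro h
  have h1 := h ζ
  rw [inv_eq] at h1
  exact hS.nun ζ specializes_rfl ⟨S.ne _, hS.eff ζ, h1⟩

/-- the quadratic form of a prime surface is positive at `p` -/
theorem tau_p [CharZero k] [IsAlgClosed k] (h : Hyp X) (hν : Num ν) (hb : ∀ i, cv ν (b i) = Pi.single i 1)
    (hcy : CY q l c ν) (hSP : SerP k) (hH : Ample (bas b H)) (hB : Bpf (bas b H)) (hc : Cor ν p H x y)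
    (ho : IsOpen (AmpV ν)) (hp : p ∈ closure (AmpV ν)) (hirr : ∀ (t : ℝ) (s : Fin 2 → ℤ), t ≠ 0 → t • p ≠ toR s)
    (P : PDiv X) {S : Cart X} (hS : SPr X P.η S) : 0 < tau q p p (cv ν S) := by
  have hHA : toR H ∈ AmpV ν := (amp_bas h.var hν hb H).1 hH
  by_cases hpe : p ∈ interior (EffV ν)
  · obtain ⟨-, hF, hZ, -⟩ := hSP K X h.var h.gen _ hH
    have htr := trdeg_pdiv h P
    have hsurf := surf_of h hcy hF hZ (fun A hA => (hSP K X h.var h.gen A hA).2.2.2) P hS htr
    have htf := gt h hν hb hcy hSP htr hS hH hB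
    have hlow := tf_low hc.crd hHA (hc.pt ho hp hHA) htf
    refine case2 (τ := triT q) (L := basG b) hν (triT_sym q) (fun D E F => ?_) hsurf h.amp hc.yp hc.xp hc.inj
      (fun D => hc.xint (cz ν D)) (fun A hA => hc.yamp _ (ampV_cv ν A hA)) (fun D hD => ?_) hp hpe
      (fun s => ⟨bas b s, ⟨s, rfl⟩, cv_bas hb s⟩) ?_
    · exact tau_int hcy hb hH (cz ν D) (cz ν E) (cz ν F)
    · have h1 := hc.yirr (cz ν D) hD
      rw [← toR_cz, h1, toR_zero]
    · refine fl_basG hb (P := fun W => chiS (triT q) l (cv ν S) (cv ν W) ≤ (h0 (resD h.var P.η W) 1 : ℝ)) ?_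
      filter_upwards [hlow] with m hm
      rw [chiS_triT q l c, cv_bas hb]
      exact hm
  · exact H36.TK.a1 h hν hcy hp hpe hirr S hS.eff (spr_not_eff hS)

/-- the bound for all surfaces -/
theorem surf_sf [CharZero k] [IsAlgClosed k] (h : Hyp X) (hν : Num ν) (hb : ∀ i, cv ν (b i) = Pi.single i 1)
    (hcy : CY q l c ν) (hSP : SerP k) (hH : Ample (bas b H)) (hB : Bpf (bas b H)) (hc : Cor ν p H x y)
    (ho : IsOpen (AmpV ν)) (hp : p ∈ closure (AmpV ν)) (hirr : ∀ (t : ℝ) (s : Fin 2 → ℤ), t ≠ 0 → t • p ≠ toR s)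
    (ζ : X.P) (htr : Algebra.trdeg k (X.kap ζ) = 2) :
    ∃ Q, SF H (cof y) (cof x) (fun m => (h0 (resD h.var ζ (bas b m)) 1 : ℝ)) Q := by
  have hHA : toR H ∈ AmpV ν := (amp_bas h.var hν hb H).1 hH
  obtain ⟨P, h1, h2⟩ := pdiv_of_trdeg h htr
  obtain ⟨S, hS⟩ := pdiv_spr h P
  have hS' := spr_congr h.var h1 h2 hS
  have htf := gt h hν hb hcy hSP htr hS' hH hB
  have ht := tau_p h hν hb hcy hSP hH hB hc ho hp hirr P hS
  exact ⟨_, tf_upp hc.crd hHA (hc.pt ho hp hHA) htf fun S' hS'' => hc.qp q l c (cv ν S) ht S' hS''⟩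

/-- a large divisor slightly beyond `p` with sections, if `p` is big -/
theorem big_beyond (h : Hyp X) (hν : Num ν) (hb : ∀ i, cv ν (b i) = Pi.single i 1) (hF : FinX X)
    (hc : Cor ν p H x y) (hpe : p ∈ interior (EffV ν)) :
    ∃ G : Fin 2 → ℤ, cof y G < 0 ∧ 0 < cof x G ∧ 0 < h0 (bas b G) 1 := by
  -- directions near `p` are in the interior of the effective cone
  have hcont : Continuous fun t : ℝ => p + t • toR H := by fun_prop
  have hpre : IsOpen ((fun t : ℝ => p + t • toR H) ⁻¹' interior (EffV ν)) := isOpen_interior.preimage hcont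
  obtain ⟨e, he, hball⟩ := Metric.isOpen_iff.1 hpre 0 (by
    show p + (0 : ℝ) • toR H ∈ interior (EffV ν)
    rw [zero_smul, add_zero]
    exact hpe)
  have hxp := hc.xp
  obtain ⟨m, hm1, hm2, hm3⟩ := hc.beyond (e := e / (2 * x p)) (by positivity)
  have hmi : toR m ∈ interior (EffV ν) := by
    obtain ⟨t, ht⟩ : ∃ t, t = y (toR m) * x p / x (toR m) := ⟨_, rfl⟩
    have hr : 0 < x (toR m) / x p := div_pos hm2 hxp
    have h1 : toR m = (x (toR m) / x p) • (p + t • toR H) := by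
      conv_lhs => rw [hc.dec (toR m)]
      rw [smul_add, smul_smul, ht, add_comm]
      congr 2
      field_simp
    have h2 : p + t • toR H ∈ interior (EffV ν) := by
      refine hball ?_
      rw [Metric.mem_ball, Real.dist_eq, sub_zero, ht, abs_div, abs_mul, abs_of_neg hm1, abs_of_pos hxp,
        abs_of_pos hm2, div_lt_iff₀ hm2]
      have h3 : e / (2 * x p) * x (toR m) * x p = e * x (toR m) / 2 := by
        field_simp
      have h4 : -y (toR m) * x p ≤ e / (2 * x p) * x (toR m) * x p :=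
        mul_le_mul_of_nonneg_right (by linarith) hxp.le
      have h5 : 0 < e * x (toR m) := mul_pos he hm2
      linarith
    rw [h1]
    -- the interior of a cone is a cone
    have h6 : IsOpen ((fun v : V 2 => (x (toR m) / x p) • v) '' interior (EffV ν)) :=
      (isOpenMap_smul₀ hr.ne') _ isOpen_interior
    refine interior_maximal (s := EffV ν) ?_ h6 ⟨_, h2, rfl⟩
    rintro _ ⟨v, hv, rfl⟩
    exact effV_smul hr.le (interior_subset hv)
  obtain ⟨N, hN, A, E, hA, hE, hAE⟩ := Pool.Agent.H36.TU.bg_holds h.var hν h.amp (bas b m) (by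
    rw [cv_bas hb]
    exact hmi)
  obtain ⟨z⟩ := h.var.ne
  obtain ⟨n, hn, s, hs, hz, -⟩ := hA z
  have hs0 : s ≠ 0 := left_ne_zero_of_mul (And.left hz)
  refine ⟨(N * n) • m, ?_, ?_, ?_⟩
  · rw [map_nsmul, cof_apply, nsmul_eq_mul]
    have : (0 : ℝ) < ((N * n : ℕ) : ℝ) := by exact_mod_cast Nat.mul_pos hN hn
    exact mul_neg_of_pos_of_neg this hm1
  · rw [map_nsmul, cof_apply, nsmul_eq_mul]
    have : (0 : ℝ) < ((N * n : ℕ) : ℝ) := by exact_mod_cast Nat.mul_pos hN hn
    exact mul_pos this hm2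
  · have h1 : bas b ((N * n) • m) = A ^ n * E ^ n := by
      rw [bas_nsmul, pow_mul, hAE, mul_pow]
    rw [h1]
    refine pos_of_sec _ (hF _) (s := s) (fun w => ?_) hs0
    rw [pow_one, mul_eq, pow_eq, pow_eq, ← mul_assoc]
    exact (X.O w).mul_mem (hs w) ((X.O w).pow_mem (hE w) n)

/-- **an irrational boundary ray is impossible** -/
theorem irr_false [CharZero k] [IsAlgClosed k] (h : Hyp X) (hsm : ∀ x, H39.TU.SmP X x) (hν : Num ν)
    (hcy : CY q l c ν) (hSP : SerP k) (hp : p ∈ closure (AmpV ν)) (hpA : p ∉ AmpV ν)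
    (hirr : ∀ (t : ℝ) (s : Fin 2 → ℤ), t ≠ 0 → t • p ≠ toR s) : False := by
  have ho := Pool.Agent.H36.TU.ampV_open h.var hν
  obtain ⟨b, hb⟩ := Pool.Agent.H36.TU.exists_bas hν
  obtain ⟨A, hA⟩ := h.amp
  have hA' : Ample (bas b (cz ν A)) := by
    rw [amp_bas h.var hν hb, toR_cz]
    exact ampV_cv ν A hA
  obtain ⟨n, hn, hBn⟩ := bpf_exists h.var _ hA'
  obtain ⟨H, hHdef⟩ : ∃ H, H = n • cz ν A := ⟨_, rfl⟩
  have hHn : bas b H = bas b (cz ν A) ^ n := by rw [hHdef, bas_nsmul]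
  have hH : Ample (bas b H) := by
    rw [hHn]
    exact ample_pow _ n hn hA'
  have hB : Bpf (bas b H) := by
    rw [hHn]
    exact hBn
  have hHA : toR H ∈ AmpV ν := (amp_bas h.var hν hb H).1 hH
  obtain ⟨x, y, hc⟩ := cor_exists h hν ho hp hpA hirr hHA
  have hpt := hc.pt ho hp hHA
  obtain ⟨-, hF, -, -⟩ := hSP K X h.var h.gen _ hH
  have hsurf := fun ζ htr => surf_sf h hν hb hcy hSP hH hB hc ho hp hirr ζ htr
  -- the lower bound on `X`
  have hBpos : 0 < h0 (bas b H) 1 := by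
    obtain ⟨z⟩ := h.var.ne
    obtain ⟨s, hs, hz⟩ := hB z
    exact pos_of_sec _ (hF _) hs (left_ne_zero_of_mul (And.left hz))
  have hlow : ∀ᶠ m in FL (cof y) (cof x), chi q l c (toR m) ≤ (h0 (bas b m) 1 : ℝ) := by
    obtain ⟨g, Q, hg, hs⟩ := gy h hν hb hSP hc.crd hHA hpt hsurf H hBpos
    exact low hc.crd (ev_chi hcy hb hH) (pl_chi q l c) hg hs
  by_cases hpe : p ∈ interior (EffV ν)
  · -- `p` is big
    obtain ⟨G, hG1, hG2, hG3⟩ := big_beyond h hν hb hF hc hpe
    refine nak (L := basG b) h.var hν h.amp hc.yp hc.xp hc.inj (fun D => hc.xint (cz ν D))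
      (fun A hA => hc.yamp _ (ampV_cv ν A hA)) (fun D hD => ?_) hp
      (fun s => ⟨bas b s, ⟨s, rfl⟩, cv_bas hb s⟩) fun z hz => ?_
    · have h1 := hc.yirr (cz ν D) hD
      rw [← toR_cz, h1, toR_zero]
    · obtain ⟨g, Q, hg, hs⟩ := gx h hν hb hSP hc.crd hHA hpt hsurf G hG3 z
      have hev : Ev H (fun m => (hv z (bas b m) : ℝ)) (fun m => chi q l c (toR m) + -1) := by
        intro m
        obtain ⟨n1, h1⟩ := ev_chi hcy hb hH m
        obtain ⟨n2, h2⟩ := Pool.Agent.H83.TU.un_pt h.var (bas b H) (bas b m) hH z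
        refine ⟨n1 + n2, fun n hn => ?_⟩
        obtain ⟨s, hs1, hs2⟩ := h2 n (by omega)
        have e1 := h1 n (by omega)
        rw [mul_comm, ← bas_line] at hs1 hs2
        have e2 := hv_eq h.var z hz (bas b (m + n • H)) (hF _) hs1 hs2
        show (hv z (bas b (m + n • H)) : ℝ) = chi q l c (toR (m + n • H)) + -1
        dsimp only at e1
        rw [← e1, ← e2]
        push_cast
        ring
      have hpl : PL H (fun m => chi q l c (toR m) + -1) := by
        intro m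
        obtain ⟨P, hP⟩ := pl_chi (H := H) q l c m
        refine ⟨P + Polynomial.C (-1), fun n => ?_⟩
        dsimp only at hP ⊢
        rw [hP, Polynomial.eval_add, Polynomial.eval_C]
      have hup := upp hc.crd hG1 hG2 hev hpl hg hs
      refine fl_basG hb (P := fun W => ∃ s : K, Sec W 1 s ∧ z ∈ nz W 1 s) ?_
      filter_upwards [hlow, hup] with m h1 h2
      by_contra hcon
      push Not at hcon
      have h3 : secL (bas b m) 1 ≤ secv z (bas b m) := by
        intro f hf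
        refine ⟨hf, fun hu => hcon f hf ?_⟩
        show Un (X.O z) (f * (bas b m).eq z ^ 1)
        rw [pow_one]
        exact hu
      have h4 : h0 (bas b m) 1 ≤ hv z (bas b m) := by
        have : Module.Finite k (secv z (bas b m)) := by
          have h5 : secv z (bas b m) ≤ secL (bas b m) 1 := fun f hf => hf.1
          have h6 : Module.Finite k (secL (bas b m) 1) := hF _
          exact Submodule.finiteDimensional_of_le h5
        exact Submodule.finrank_mono h3
      have h5 : (h0 (bas b m) 1 : ℝ) ≤ hv z (bas b m) := by exact_mod_cast h4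
      linarith
  · -- `p` is not big
    obtain ⟨δ, hδ, X₀, h1⟩ := fl_reg hlow
    obtain ⟨m, -, h2, h3, h4⟩ := H36.TK.four h hsm hν hcy hp hpe hirr hb hHA hc δ X₀ hδ
    have h5 := h1 m h2 h3
    linarith

end Pool.Agent.H20.TK
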