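import Pool.Agent.H20.TK.Pln

/-!
# [H20 TK Cex] THEOREM K: existence of the coordinates; integral classes slightly beyond `p`
-/

set_option autoImplicit false

open Filter

namespace Pool.Agent.H20.TK

open Pool.Agent.H57.KM Pool.Agent.H54.RV Pool.Agent.H83.TU

variable {k K : Type} [Field k] [Field K] [Algebra k K] {X : Mod k K}
  {ν : Cart X →* Multiplicative (Fin 2 → ℤ)} {p : V 2} {H : Fin 2 → ℤ} {x y : V 2 →ₗ[ℝ] ℝ}

theorem zero_notMem [CharZero k] (h : Hyp X) (hν : Num ν) : (0 : V 2) ∉ AmpV ν := by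
  obtain ⟨F, hF⟩ := exists_F0 h
  have hR := rfun_rf h.var h.gen (uf_all h.var) F hF
  obtain ⟨x, hx⟩ := rfun_lin h hν hR
  intro h0
  have hpos : ∀ w ∈ AmpV ν, 0 < x w := by
    rintro _ ⟨m, c, D, hc, hD, rfl⟩
    rw [map_sum]
    refine Finset.sum_pos (fun i _ => ?_) ⟨0, Finset.mem_univ _⟩
    rw [map_smul, smul_eq_mul, hx]
    exact mul_pos (hc i) (by exact_mod_cast hR.amp _ (hD i))
  have := hpos 0 h0
  rw [map_zero] at this
  exact lt_irrefl _ this

theorem det_zero {p u : V 2} (hu : u ≠ 0) (h : p 0 * u 1 - p 1 * u 0 = 0) : ∃ c : ℝ, p = c • u := by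
  by_cases h0 : u 0 = 0
  · have h1 : u 1 ≠ 0 := by
      intro h1
      apply hu
      funext i
      fin_cases i
      · exact h0
      · exact h1
    refine ⟨p 1 / u 1, ?_⟩
    rw [h0, mul_zero, sub_zero] at h
    have h2 : p 0 = 0 := (mul_eq_zero.1 h).resolve_right h1
    funext i
    fin_cases i
    · show p 0 = p 1 / u 1 * u 0
      rw [h0, h2, mul_zero]
    · show p 1 = p 1 / u 1 * u 1
      rw [div_mul_cancel₀ _ h1]
  · refine ⟨p 0 / u 0, ?_⟩
    funext i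
    fin_cases i
    · show p 0 = p 0 / u 0 * u 0
      rw [div_mul_cancel₀ _ h0]
    · show p 1 = p 0 / u 0 * u 1
      field_simp
      linarith

/-- existence of the coordinates -/
theorem cor_exists [CharZero k] (h : Hyp X) (hν : Num ν) (ho : IsOpen (AmpV ν)) (hp : p ∈ closure (AmpV ν))
    (hpA : p ∉ AmpV ν) (hirr : ∀ (t : ℝ) (s : Fin 2 → ℤ), t ≠ 0 → t • p ≠ toR s) (hH : toR H ∈ AmpV ν) :
    ∃ x y : V 2 →ₗ[ℝ] ℝ, Cor ν p H x y := by
  have h0 := zero_notMem h hν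
  have hp0 : p ≠ 0 := by
    rintro rfl
    exact hirr 1 0 one_ne_zero (by rw [smul_zero, toR_zero])
  have hirr' : ∀ m : Fin 2 → ℤ, m ≠ 0 → p 0 * (m 1 : ℝ) - p 1 * (m 0 : ℝ) ≠ 0 := by
    intro m hm hd
    obtain ⟨c, hc⟩ := det_zero (p := p) (u := toR m) (fun h1 => hm (toR_inj (by rw [h1, toR_zero]))) hd
    have hc0 : c ≠ 0 := by
      rintro rfl
      exact hp0 (by rw [hc, zero_smul])
    refine hirr c⁻¹ m (inv_ne_zero hc0) ?_
    rw [hc, smul_smul, inv_mul_cancel₀ hc0, one_smul]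
  have hH0 : H ≠ 0 := by
    rintro rfl
    rw [toR_zero] at hH
    exact h0 hH
  obtain ⟨Δ, hΔ⟩ : ∃ Δ, Δ = p 0 * (H 1 : ℝ) - p 1 * (H 0 : ℝ) := ⟨_, rfl⟩
  have hΔ0 : Δ ≠ 0 := by rw [hΔ]; exact hirr' H hH0
  obtain ⟨σ, hσ, hσΔ⟩ : ∃ σ : ℤ, (σ = 1 ∨ σ = -1) ∧ 0 < (σ : ℝ) * Δ := by
    rcases lt_or_gt_of_ne hΔ0 with h1 | h1
    · exact ⟨-1, Or.inr rfl, by push_cast; linarith⟩
    · exact ⟨1, Or.inl rfl, by push_cast; linarith⟩
  have hσ0 : (σ : ℝ) ≠ 0 := by
    rintro h1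
    rw [h1, zero_mul] at hσΔ
    exact lt_irrefl _ hσΔ
  let x : V 2 →ₗ[ℝ] ℝ := ((σ : ℝ) * H 1) • LinearMap.proj 0 - ((σ : ℝ) * H 0) • LinearMap.proj 1
  let y : V 2 →ₗ[ℝ] ℝ := (-(p 1) / Δ) • LinearMap.proj 0 + (p 0 / Δ) • LinearMap.proj 1
  have hx : ∀ v : V 2, x v = σ * (v 0 * H 1 - v 1 * H 0) := fun v => by
    show (σ : ℝ) * H 1 * v 0 - (σ : ℝ) * H 0 * v 1 = _
    ring
  have hy : ∀ v : V 2, y v = (p 0 * v 1 - p 1 * v 0) / Δ := fun v => by
    show -(p 1) / Δ * v 0 + p 0 / Δ * v 1 = _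
    field_simp
    ring
  have hyp : y p = 0 := by rw [hy]; ring
  have hxp : 0 < x p := by
    rw [hx, ← hΔ]
    exact hσΔ
  have hyH : y (toR H) = 1 := by
    rw [hy]
    show (p 0 * (H 1 : ℝ) - p 1 * (H 0 : ℝ)) / Δ = 1
    rw [← hΔ, div_self hΔ0]
  have hxH : x (toR H) = 0 := by
    rw [hx]
    show (σ : ℝ) * ((H 0 : ℝ) * H 1 - (H 1 : ℝ) * H 0) = 0
    ring
  have hinj : ∀ v, x v = 0 → y v = 0 → v = 0 := by
    intro v h1 h2
    rw [hx] at h1
    rw [hy] at h2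
    have h3 : v 0 * H 1 - v 1 * H 0 = 0 := (mul_eq_zero.1 h1).resolve_left hσ0
    have h4 : p 0 * v 1 - p 1 * v 0 = 0 := (div_eq_zero_iff.1 h2).resolve_right hΔ0
    have e0 : v 0 * Δ = 0 := by
      rw [hΔ]
      linear_combination p 0 * h3 + (H 0 : ℝ) * h4
    have e1 : v 1 * Δ = 0 := by
      rw [hΔ]
      linear_combination p 1 * h3 + (H 1 : ℝ) * h4
    funext i
    fin_cases i
    · exact (mul_eq_zero.1 e0).resolve_right hΔ0
    · exact (mul_eq_zero.1 e1).resolve_right hΔ0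
  have hdec : ∀ v, y v = 0 → v = (x v / x p) • p := by
    intro v hv
    have h1 := hinj (v - (x v / x p) • p) (by
      rw [map_sub, map_smul, smul_eq_mul, div_mul_cancel₀ _ hxp.ne', sub_self]) (by
      rw [map_sub, map_smul, hyp, smul_zero, sub_zero, hv])
    exact sub_eq_zero.1 h1
  have hno : ∀ w ∈ AmpV ν, y w ≠ 0 := by
    intro w hw hyw
    obtain ⟨r, h1⟩ : ∃ r : ℝ, w = r • p := ⟨_, hdec w hyw⟩
    rcases lt_or_ge 0 r with h2 | h2
    · apply hpA
      have h3 : p = r⁻¹ • w := by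
        rw [h1, smul_smul, inv_mul_cancel₀ h2.ne', one_smul]
      rw [h3]
      exact ampV_smul (inv_pos.2 h2) hw
    · apply h0
      have h3 := Pool.Agent.H32.TK.comb_mem ho hp hw (a := -r) (b := 1) (by linarith) one_pos
      have h4 : (-r) • p + (1 : ℝ) • w = 0 := by
        rw [one_smul, neg_smul, ← h1]
        exact neg_add_cancel w
      rwa [h4] at h3
  refine ⟨x, y, ⟨hyp, hxp, hyH, hxH, hinj, fun m => ?_, fun v hv => ?_, fun m hm => ?_⟩⟩
  · refine ⟨σ * (m 0 * H 1 - m 1 * H 0), ?_⟩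
    rw [hx]
    unfold toR
    push_cast
    ring
  · by_contra hcon
    push Not at hcon
    rcases hcon.eq_or_lt with h1 | h1
    · exact hno v hv h1
    · refine hno (v + (-(y v)) • toR H) (ampV_add hv (ampV_smul (by linarith) hH)) ?_
      rw [map_add, map_smul, hyH, smul_eq_mul]
      ring
  · by_contra hm0
    rw [hy] at hm
    exact hirr' m hm0 ((div_eq_zero_iff.1 hm).resolve_right hΔ0)

/-- the part of the cone at `p` is ample -/
theorem Cor.amp (hc : Cor ν p H x y) (ho : IsOpen (AmpV ν)) (hp : p ∈ closure (AmpV ν)) (hH : toR H ∈ AmpV ν)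
    (v : V 2) (h1 : 0 < y v) (h2 : 0 ≤ x v) : v ∈ AmpV ν := by
  rw [hc.dec v, add_comm]
  exact Pool.Agent.H32.TK.comb_mem ho hp hH (div_nonneg h2 hc.xp.le) h1

/-- integral classes slightly beyond `p` -/
theorem Cor.beyond (hc : Cor ν p H x y) {e : ℝ} (he : 0 < e) :
    ∃ m : Fin 2 → ℤ, y (toR m) < 0 ∧ 0 < x (toR m) ∧ -(e * x (toR m)) ≤ y (toR m) := by
  obtain ⟨w, hw⟩ : ∃ w : V 2, w = p - (e * x p / 2) • toR H := ⟨_, rfl⟩
  have hyw : y w = -(e * x p / 2) := by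
    rw [hw, map_sub, hc.yp, map_smul, hc.yH, smul_eq_mul]
    ring
  have hxw : x w = x p := by
    rw [hw, map_sub, map_smul, hc.xH, smul_zero, sub_zero]
  have hex := mul_pos he hc.xp
  have hU : IsOpen {v : V 2 | y v < 0 ∧ 0 < x v ∧ -(e * x v) < y v} := by
    have hy : Continuous y := LinearMap.continuous_of_finiteDimensional _
    have hx : Continuous x := LinearMap.continuous_of_finiteDimensional _
    exact (isOpen_lt hy continuous_const).inter ((isOpen_lt continuous_const hx).inter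
      (isOpen_lt (continuous_const.mul hx).neg hy))
  obtain ⟨q, hq1, hq2, hq3⟩ := exists_rat hU ⟨w, by
    show y w < 0
    rw [hyw]; linarith, by
    show 0 < x w
    rw [hxw]; exact hc.xp, by
    show -(e * x w) < y w
    rw [hyw, hxw]; linarith⟩
  obtain ⟨d, hd⟩ : ∃ d : ℕ, d = (q 0).den * (q 1).den := ⟨_, rfl⟩
  have hd0 : (0 : ℝ) < d := by
    rw [hd]
    exact_mod_cast Nat.mul_pos (q 0).den_pos (q 1).den_pos
  obtain ⟨m, hm⟩ : ∃ m : Fin 2 → ℤ, toR m = (d : ℝ) • qR q := by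
    refine ⟨![(q 0).num * (q 1).den, (q 1).num * (q 0).den], ?_⟩
    have e0 : ((q 0 : ℚ) : ℝ) = ((q 0).num : ℝ) / ((q 0).den : ℝ) := by
      exact_mod_cast (Rat.num_div_den (q 0)).symm
    have e1 : ((q 1 : ℚ) : ℝ) = ((q 1).num : ℝ) / ((q 1).den : ℝ) := by
      exact_mod_cast (Rat.num_div_den (q 1)).symm
    have n0 : ((q 0).den : ℝ) ≠ 0 := by exact_mod_cast (q 0).den_pos.ne'
    have n1 : ((q 1).den : ℝ) ≠ 0 := by exact_mod_cast (q 1).den_pos.ne'
    funext i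
    fin_cases i
    · show (((q 0).num * (q 1).den : ℤ) : ℝ) = (d : ℝ) * ((q 0 : ℚ) : ℝ)
      rw [e0, hd]
      push_cast
      field_simp
    · show (((q 1).num * (q 0).den : ℤ) : ℝ) = (d : ℝ) * ((q 1 : ℚ) : ℝ)
      rw [e1, hd]
      push_cast
      field_simp
  refine ⟨m, ?_, ?_, ?_⟩
  · rw [hm, map_smul, smul_eq_mul]
    exact mul_neg_of_pos_of_neg hd0 hq1
  · rw [hm, map_smul, smul_eq_mul]
    exact mul_pos hd0 hq2
  · rw [hm, map_smul, map_smul, smul_eq_mul, smul_eq_mul]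
    have h1 := mul_le_mul_of_nonneg_left hq3.le hd0.le
    linarith

/-- the polynomial of a surface is positive at large classes slightly beyond `p` -/
theorem Cor.qp (hc : Cor ν p H x y) (q : Fin 4 → ℝ) (l : V 2 →ₗ[ℝ] ℝ) (c : ℝ) (t : V 2) (h : 0 < tau q p p t)
    (S : Set (Fin 2 → ℤ)) (hS : S ∈ FL (cof y) (cof x)) :
    ∃ G ∈ S, cof y G < 0 ∧ 0 < cof x G ∧ 0 < chT q l c t (toR G) := by
  obtain ⟨e, he, R, hR⟩ := hS 0
  -- the quadratic form is positive near `p`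
  obtain ⟨e1, he1, hq⟩ : ∃ e1 : ℝ, 0 < e1 ∧ ∀ v : V 2, y v < 0 → 0 < x v → -(e1 * x v) ≤ y v →
      0 < tau q v v t := by
    obtain ⟨A, hA⟩ : ∃ A, A = |tau q (toR H) (toR H) t| := ⟨_, rfl⟩
    obtain ⟨B, hB⟩ : ∃ B, B = |tau q (toR H) p t| := ⟨_, rfl⟩
    obtain ⟨T, hT⟩ : ∃ T, T = tau q p p t := ⟨_, rfl⟩
    rw [← hT] at h
    have hA0 : 0 ≤ A := by rw [hA]; exact abs_nonneg _
    have hB0 : 0 ≤ B := by rw [hB]; exact abs_nonneg _
    have hxp := hc.xp
    obtain ⟨e1, he1⟩ : ∃ e1, e1 = min 1 (T / (2 * (A * x p ^ 2 + 2 * B * x p + 1))) := ⟨_, rfl⟩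
    have hD0 : 0 < A * x p ^ 2 + 2 * B * x p + 1 := by positivity
    have h10 : 0 < e1 := by rw [he1]; exact lt_min one_pos (by positivity)
    have h11 : e1 ≤ 1 := by rw [he1]; exact min_le_left _ _
    have h12 : e1 * (2 * (A * x p ^ 2 + 2 * B * x p + 1)) ≤ T := by
      rw [← le_div_iff₀ (by positivity), he1]
      exact min_le_right _ _
    refine ⟨e1, h10, fun v h1 h2 h3 => ?_⟩
    obtain ⟨α, hα⟩ : ∃ α, α = y v := ⟨_, rfl⟩
    obtain ⟨β, hβ⟩ : ∃ β, β = x v / x p := ⟨_, rfl⟩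
    have hβ0 : 0 < β := by rw [hβ]; exact div_pos h2 hxp
    have hxv : x v = β * x p := by rw [hβ]; field_simp
    have hdec := hc.dec v
    rw [← hα, ← hβ] at hdec
    have hexp : tau q v v t = α ^ 2 * tau q (toR H) (toR H) t + 2 * (α * β) * tau q (toR H) p t + β ^ 2 * T := by
      rw [hdec, hT]
      unfold tau
      simp only [Pi.add_apply, Pi.smul_apply, smul_eq_mul]
      ring
    rw [← hα] at h1 h3
    rw [hxv] at h3
    have hα1 : |α| ≤ e1 * x p * β := by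
      rw [abs_of_neg h1]
      linarith
    have k1 : -A ≤ tau q (toR H) (toR H) t := by rw [hA]; exact neg_abs_le _
    have k2 : |2 * (α * β) * tau q (toR H) p t| ≤ 2 * (e1 * x p * β * β) * B := by
      rw [abs_mul, abs_mul, abs_mul, abs_of_pos hβ0, abs_two, ← hB]
      have := mul_le_mul_of_nonneg_right hα1 hβ0.le
      have h5 := mul_le_mul_of_nonneg_left this (by norm_num : (0 : ℝ) ≤ 2)
      exact mul_le_mul_of_nonneg_right h5 hB0
    have k3 := neg_abs_le (2 * (α * β) * tau q (toR H) p t)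
    have k4 : α ^ 2 ≤ (e1 * x p * β) ^ 2 := by
      rw [← sq_abs]
      exact pow_le_pow_left₀ (abs_nonneg _) hα1 2
    have k5 : α ^ 2 * tau q (toR H) (toR H) t ≥ -((e1 * x p * β) ^ 2 * A) := by
      have h6 : α ^ 2 * -A ≤ α ^ 2 * tau q (toR H) (toR H) t := mul_le_mul_of_nonneg_left k1 (sq_nonneg _)
      have h7 := mul_le_mul_of_nonneg_right k4 hA0
      linarith
    have k6 : (e1 * x p * β) ^ 2 * A ≤ e1 * (A * x p ^ 2) * β ^ 2 := by
      have h8 : (e1 * x p * β) ^ 2 * A = e1 * (e1 * (A * x p ^ 2) * β ^ 2) := by ring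
      have h9 := mul_le_mul_of_nonneg_right h11 (show 0 ≤ e1 * (A * x p ^ 2) * β ^ 2 by positivity)
      rw [h8]
      linarith
    have k7 : e1 * (A * x p ^ 2 + 2 * B * x p + 1) * β ^ 2 ≤ T / 2 * β ^ 2 :=
      mul_le_mul_of_nonneg_right (by linarith) (sq_nonneg _)
    have k8 : 0 < T / 2 * β ^ 2 := by positivity
    have k9 : 0 < e1 * β ^ 2 := by positivity
    rw [hexp]
    nlinarith
  obtain ⟨m, hm1, hm2, hm3⟩ := hc.beyond (e := min (min e (1 / 2)) e1) (lt_min (lt_min he (by norm_num)) he1)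
  have hm3' : -(e1 * x (toR m)) ≤ y (toR m) := by
    have := mul_le_mul_of_nonneg_right (min_le_right (min e (1 / 2)) e1) hm2.le
    linarith
  have hm4 : -(min e (1 / 2) * x (toR m)) ≤ y (toR m) := by
    have := mul_le_mul_of_nonneg_right (min_le_left (min e (1 / 2)) e1) hm2.le
    linarith
  have hq0 := hq (toR m) hm1 hm2 hm3'
  obtain ⟨a2, ha2⟩ : ∃ a2, a2 = tau q (toR m) (toR m) t / 2 := ⟨_, rfl⟩
  obtain ⟨a1, ha1⟩ : ∃ a1, a1 = tau q (toR m) t t / 2 := ⟨_, rfl⟩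
  obtain ⟨a0, ha0⟩ : ∃ a0, a0 = tau q t t t / 6 + l t := ⟨_, rfl⟩
  have ha20 : 0 < a2 := by rw [ha2]; exact half_pos hq0
  obtain ⟨n, hn⟩ := exists_nat_ge (1 + (|a1| + |a0|) / a2 + 2 * |R| / x (toR m))
  have hn1 : (1 : ℝ) ≤ n := by
    have h5 : 0 ≤ (|a1| + |a0|) / a2 := by positivity
    have h6 : 0 ≤ 2 * |R| / x (toR m) := by positivity
    linarith
  have hn2 : |a1| + |a0| < n * a2 := by
    have h6 : 0 ≤ 2 * |R| / x (toR m) := by positivity
    have h7 : (|a1| + |a0|) / a2 < n := by linarith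
    rwa [div_lt_iff₀ ha20] at h7
  have hn3 : 2 * |R| ≤ n * x (toR m) := by
    have h5 : 0 ≤ (|a1| + |a0|) / a2 := by positivity
    have h7 : 2 * |R| / x (toR m) ≤ n := by linarith
    rwa [div_le_iff₀ hm2] at h7
  have hn0 : (0 : ℝ) < n := by linarith
  have ey : y (toR (n • m)) = n * y (toR m) := by rw [toR_nsmul, map_smul, smul_eq_mul]
  have ex : x (toR (n • m)) = n * x (toR m) := by rw [toR_nsmul, map_smul, smul_eq_mul]
  have hxn : 0 < x (toR (n • m)) := by rw [ex]; positivity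
  refine ⟨n • m, hR ⟨?_, ?_, ?_⟩, ?_, ?_, ?_⟩
  · rw [cof_apply, cof_apply, abs_of_pos hxn, ex, ey]
    have h5 := mul_le_mul_of_nonneg_right (min_le_left e (1 / 2)) hm2.le
    have h6 : -(e * x (toR m)) ≤ y (toR m) := by linarith
    have h7 := mul_le_mul_of_nonneg_left h6 hn0.le
    linarith
  · rw [cof_apply, neg_zero]
    exact hxn.le
  · rw [cof_apply, cof_apply, ex, ey]
    have h5 := mul_le_mul_of_nonneg_right (min_le_right e (1 / 2)) hm2.le
    have h6 : -(1 / 2 * x (toR m)) ≤ y (toR m) := by linarith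
    have h7 := mul_le_mul_of_nonneg_left h6 hn0.le
    have h8 := le_abs_self R
    linarith
  · rw [cof_apply, ey]
    exact mul_neg_of_pos_of_neg hn0 hm1
  · rw [cof_apply]
    exact hxn
  · rw [chT_eq, toR_nsmul, tau_smul, tau_smul2, tau_smul]
    have h5 := neg_abs_le a1
    have h6 := neg_abs_le a0
    have h7 := le_abs_self a1
    have e5 : (n : ℝ) * (n * tau q (toR m) (toR m) t) / 2 - n * tau q (toR m) t t / 2 + tau q t t t / 6 + l t =
        n * (n * a2) - n * a1 + a0 := by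
      rw [ha2, ha1, ha0]
      ring
    rw [e5]
    nlinarith [abs_nonneg a1, abs_nonneg a0]

end Pool.Agent.H20.TK
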