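import Pool.Agent.H20.TK.Cex
import Pool.Agent.H36.TU.VC

/-!
# [H20 TK Chi] THEOREM K: the divisors `bas b m`, integrality and polynomiality of `chi`

* `bas b m = b 0 ^ m 0 * b 1 ^ m 1`.
* `Tri` (helper32) of `tau q`.
-/

set_option autoImplicit false

open Filter

namespace Pool.Agent.H20.TK

open Pool.Agent.H57.KM Pool.Agent.H54.RV Pool.Agent.H83.TU

variable {k K : Type} [Field k] [Field K] [Algebra k K] {X : Mod k K}
  {ν : Cart X →* Multiplicative (Fin 2 → ℤ)} {p : V 2} {H : Fin 2 → ℤ} {x y : V 2 →ₗ[ℝ] ℝ}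

/-- the divisor of a lattice point -/
noncomputable def bas (b : Fin 2 → Cart X) (m : Fin 2 → ℤ) : Cart X := b 0 ^ m 0 * b 1 ^ m 1

theorem bas_add (b : Fin 2 → Cart X) (m n : Fin 2 → ℤ) : bas b (m + n) = bas b m * bas b n := by
  unfold bas
  rw [Pi.add_apply, Pi.add_apply, zpow_add, zpow_add, mul_mul_mul_comm]

theorem bas_zero (b : Fin 2 → Cart X) : bas b 0 = 1 := by
  unfold bas
  rw [Pi.zero_apply, Pi.zero_apply, zpow_zero, zpow_zero, one_mul]

theorem bas_neg (b : Fin 2 → Cart X) (m : Fin 2 → ℤ) : bas b (-m) = (bas b m)⁻¹ := by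
  rw [eq_inv_iff_mul_eq_one, ← bas_add, neg_add_cancel, bas_zero]

theorem bas_sub (b : Fin 2 → Cart X) (m n : Fin 2 → ℤ) : bas b (m - n) = bas b m * (bas b n)⁻¹ := by
  rw [sub_eq_add_neg, bas_add, bas_neg]

theorem bas_nsmul (b : Fin 2 → Cart X) (n : ℕ) (m : Fin 2 → ℤ) : bas b (n • m) = bas b m ^ n := by
  induction n with
  | zero => rw [zero_smul, pow_zero, bas_zero]
  | succ n ih => rw [succ_nsmul, bas_add, ih, pow_succ]

theorem bas_line (b : Fin 2 → Cart X) (n : ℕ) (m : Fin 2 → ℤ) : bas b (m + n • H) = bas b m * bas b H ^ n := by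
  rw [bas_add, bas_nsmul]

theorem cv_bas {b : Fin 2 → Cart X} (hb : ∀ i, cv ν (b i) = Pi.single i 1) (m : Fin 2 → ℤ) :
    cv ν (bas b m) = toR m := Pool.Agent.H36.TU.cv_bas hb m

/-- the class of a divisor as a lattice point -/
noncomputable def cz (ν : Cart X →* Multiplicative (Fin 2 → ℤ)) (D : Cart X) : Fin 2 → ℤ := Multiplicative.toAdd (ν D)

theorem toR_cz (D : Cart X) : toR (cz ν D) = cv ν D := rfl

theorem amp_bas (hX : IsVar X) (hν : Num ν) {b : Fin 2 → Cart X} (hb : ∀ i, cv ν (b i) = Pi.single i 1)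
    (m : Fin 2 → ℤ) : Ample (bas b m) ↔ toR m ∈ AmpV ν := by
  rw [← cv_bas hb m]
  exact ⟨fun h => ampV_cv ν _ h, fun h => Pool.Agent.H36.TU.ac_holds hX hν _ h⟩

/-- the trilinear form -/
noncomputable def tri (q : Fin 4 → ℝ) : Pool.Agent.H32.TK.Tri :=
  LinearMap.mk₂ ℝ (fun u w => (IsLinearMap.mk' (tau q u w) ⟨fun s t => tau_add3 q s t u w, fun r s => tau_smul3 q r s u w⟩ :
      V 2 →ₗ[ℝ] ℝ))
    (fun u u' w => LinearMap.ext fun t => tau_add q u u' w t)
    (fun r u w => LinearMap.ext fun t => tau_smul q r u w t)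
    (fun u w w' => LinearMap.ext fun t => tau_add2 q w w' u t)
    (fun r u w => LinearMap.ext fun t => tau_smul2 q r w u t)

@[simp] theorem tri_apply (q : Fin 4 → ℝ) (u w t : V 2) : tri q u w t = tau q u w t := rfl

theorem tri_sym (q : Fin 4 → ℝ) : Pool.Agent.H32.TK.Sym3 (tri q) :=
  ⟨fun a b c => tau_comm q a b c, fun a b c => tau_comm' q a b c⟩

variable (q : Fin 4 → ℝ) (l : V 2 →ₗ[ℝ] ℝ) (c : ℝ)

theorem chi_tri (w : V 2) : Pool.Agent.H32.TK.chi (tri q) l c w = chi q l c w := rfl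

theorem chiS_tri (t w : V 2) : Pool.Agent.H32.TK.chiS (tri q) l t w = chT q l c t w := by
  rw [chT_eq]
  rfl

/-- `chi` is a polynomial along the lines -/
theorem pl_chi : PL H (fun m => chi q l c (toR m)) := by
  intro m
  obtain ⟨u, hu⟩ : ∃ u, u = toR m := ⟨_, rfl⟩
  obtain ⟨h, hh⟩ : ∃ h, h = toR H := ⟨_, rfl⟩
  refine ⟨Polynomial.C (tau q h h h / 6) * Polynomial.X ^ 3 + Polynomial.C (tau q u h h / 2) * Polynomial.X ^ 2 +
    Polynomial.C (tau q u u h / 2 + l h) * Polynomial.X + Polynomial.C (chi q l c u), fun n => ?_⟩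
  show chi q l c (toR (m + n • H)) = _
  rw [toR_add, toR_zsmul, ← hu, ← hh]
  simp only [Polynomial.eval_add, Polynomial.eval_C, Polynomial.eval_mul, Polynomial.eval_X, Polynomial.eval_pow]
  unfold chi
  rw [map_add, map_smul, smul_eq_mul]
  unfold tau
  simp only [Pi.add_apply, Pi.smul_apply, smul_eq_mul]
  ring

theorem pl_neg {Q : (Fin 2 → ℤ) → ℝ} (h : PL H Q) : PL H (fun m => -Q m) := by
  intro m
  obtain ⟨P, hP⟩ := h m
  refine ⟨-P, fun n => ?_⟩
  show -Q (m + n • H) = _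
  rw [Polynomial.eval_neg, hP]

theorem pl_chT (t : Fin 2 → ℤ) : PL H (fun m => chT q l c (toR t) (toR m)) := by
  have h1 := pl_add (pl_chi (H := H) q l c) (pl_neg (pl_shift (pl_chi (H := H) q l c) (-t)))
  have e : (fun m => chT q l c (toR t) (toR m)) =
      fun m => chi q l c (toR m) + -chi q l c (toR (m + -t)) := by
    funext m
    unfold chT
    rw [← sub_eq_add_neg, ← sub_eq_add_neg, toR_sub]
  rw [e]
  exact h1

variable {q l c}

/-- the numbers of sections of the divisors of the lattice -/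
theorem ev_chi (hcy : CY q l c ν) {b : Fin 2 → Cart X} (hb : ∀ i, cv ν (b i) = Pi.single i 1)
    (hH : Ample (bas b H)) : Ev H (fun m => (h0 (bas b m) 1 : ℝ)) (fun m => chi q l c (toR m)) := by
  intro m
  obtain ⟨n₀, hn⟩ := hcy.ev (bas b m) (bas b H) hH
  refine ⟨n₀, fun n hn' => ?_⟩
  have h1 := hn n hn'
  rw [← bas_line, cv_bas hb] at h1
  exact h1

/-- `chi` is integral on the lattice -/
theorem chi_int (hcy : CY q l c ν) {b : Fin 2 → Cart X} (hb : ∀ i, cv ν (b i) = Pi.single i 1)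
    (hH : Ample (bas b H)) (m : Fin 2 → ℤ) : ∃ z : ℤ, chi q l c (toR m) = z := by
  obtain ⟨n₀, hn⟩ := ev_chi hcy hb hH m
  -- descending induction
  have key : ∀ j : ℕ, j ≤ n₀ → ∀ i : ℕ, n₀ - j ≤ i → ∃ z : ℤ, chi q l c (toR (m + i • H)) = z := by
    intro j
    induction j with
    | zero =>
      intro _ i hi
      exact ⟨(h0 (bas b (m + i • H)) 1 : ℤ), by
        have := hn i (by omega)
        dsimp only at this
        rw [← this]
        push_cast
        rfl⟩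
    | succ j ih =>
      intro hj i hi
      by_cases h1 : n₀ - j ≤ i
      · exact ih (by omega) i h1
      · obtain ⟨z1, h1⟩ := ih (by omega) (i + 1) (by omega)
        obtain ⟨z2, h2⟩ := ih (by omega) (i + 2) (by omega)
        obtain ⟨z3, h3⟩ := ih (by omega) (i + 3) (by omega)
        obtain ⟨z4, h4⟩ := ih (by omega) (i + 4) (by omega)
        refine ⟨4 * z1 - 6 * z2 + 4 * z3 - z4, ?_⟩
        push_cast
        rw [← h1, ← h2, ← h3, ← h4]
        simp only [toR_add, toR_nsmul]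
        push_cast
        unfold chi
        simp only [map_add, map_smul, smul_eq_mul]
        unfold tau
        simp only [Pi.add_apply, Pi.smul_apply, smul_eq_mul]
        ring
  have := key n₀ le_rfl 0 (by omega)
  rwa [zero_smul, add_zero] at this

theorem tau_int (hcy : CY q l c ν) {b : Fin 2 → Cart X} (hb : ∀ i, cv ν (b i) = Pi.single i 1)
    (hH : Ample (bas b H)) (m n t : Fin 2 → ℤ) : ∃ z : ℤ, tau q (toR m) (toR n) (toR t) = z := by
  obtain ⟨z1, h1⟩ := chi_int hcy hb hH (m + n + t)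
  obtain ⟨z2, h2⟩ := chi_int hcy hb hH (m + n)
  obtain ⟨z3, h3⟩ := chi_int hcy hb hH (m + t)
  obtain ⟨z4, h4⟩ := chi_int hcy hb hH (n + t)
  obtain ⟨z5, h5⟩ := chi_int hcy hb hH m
  obtain ⟨z6, h6⟩ := chi_int hcy hb hH n
  obtain ⟨z7, h7⟩ := chi_int hcy hb hH t
  obtain ⟨z8, h8⟩ := chi_int hcy hb hH 0
  refine ⟨z1 - z2 - z3 - z4 + z5 + z6 + z7 - z8, ?_⟩
  push_cast
  rw [← h1, ← h2, ← h3, ← h4, ← h5, ← h6, ← h7, ← h8, toR_zero]
  simp only [toR_add]
  unfold chi
  simp only [map_add, map_zero]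
  unfold tau
  simp only [Pi.add_apply, Pi.zero_apply]
  ring

theorem l_rat (hcy : CY q l c ν) {b : Fin 2 → Cart X} (hb : ∀ i, cv ν (b i) = Pi.single i 1)
    (hH : Ample (bas b H)) (m : Fin 2 → ℤ) : ∃ z : ℤ, 6 * l (toR m) = z := by
  obtain ⟨z1, h1⟩ := chi_int hcy hb hH m
  obtain ⟨z2, h2⟩ := chi_int hcy hb hH 0
  obtain ⟨z3, h3⟩ := tau_int hcy hb hH m m m
  refine ⟨6 * (z1 - z2) - z3, ?_⟩
  push_cast
  rw [← h1, ← h2, ← h3, toR_zero]
  unfold chi
  rw [map_zero]
  unfold tau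
  simp only [Pi.zero_apply]
  ring

end Pool.Agent.H20.TK
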