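import Mathlib

/-!
# THEOREM K (MP_e49dc9_ag): the calculus of the large classes near an irrational boundary ray, definitions

`L` is the lattice of the classes (`Fin 2 → ℤ`), `H : L` the class of an ample divisor, `p` an irrational boundary class;
`a b : L →+ ℝ` are the coordinates with respect to `H` and `p` (`m = a m • H + b m • p` in `ℝ²`).

* `Crd H a b`: `a H = 1`, `b H = 0`, and only finitely many `m` have bounded coordinates.
* `Reg a b e B R`: the region `a ≥ - e |b|`, `b ≥ - B`, `a + b ≥ R`: the large classes which are, up to a bounded error,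
  in the cone between the ray of `H` and a ray slightly beyond `p`.
* `FL a b`: the filter of the sets which contain for every `B` a region `Reg a b e B R` with `e > 0`.
* `PL H Q`: `Q` is a polynomial function along the lines `m + ℤ H`.
* `Ev H f Q`: `f = Q` at `m + n H`, for all large `n`.
* `Stp H G f g`: `f m ≤ f (m - G) + g m`, with equality at `m + n H`, for all large `n`.
* `NL A g`: `g` is the sum of a linear form and a constant where finitely many degrees (additive functions, positive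
  on the set `A` of the ample classes) are large; the linear form is `≥ 0` on `A`.
-/

set_option autoImplicit false

open Filter

namespace Pool.Agent.H20.TK

variable {L : Type} [AddCommGroup L]

/-- coordinates on the lattice -/
structure Crd (H : L) (a b : L →+ ℝ) : Prop where
  aH : a H = 1
  bH : b H = 0
  fin : ∀ R : ℝ, {m : L | |a m| ≤ R ∧ |b m| ≤ R}.Finite

/-- a region between the ray of `H` and a ray slightly beyond `p` -/
def Reg (a b : L →+ ℝ) (e B R : ℝ) : Set L := {m | -(e * |b m|) ≤ a m ∧ -B ≤ b m ∧ R ≤ a m + b m}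

theorem reg_mono (a b : L →+ ℝ) {e e' B B' R R' : ℝ} (he : e ≤ e') (hB : B ≤ B') (hR : R' ≤ R) :
    Reg a b e B R ⊆ Reg a b e' B' R' := by
  rintro m ⟨h1, h2, h3⟩
  refine ⟨?_, by linarith, by linarith⟩
  have := mul_le_mul_of_nonneg_right he (abs_nonneg (b m))
  linarith

/-- the filter of the regions -/
def FL (a b : L →+ ℝ) : Filter L where
  sets := {S | ∀ B : ℝ, ∃ e : ℝ, 0 < e ∧ ∃ R : ℝ, Reg a b e B R ⊆ S}
  univ_sets := fun _ => ⟨1, one_pos, 0, Set.subset_univ _⟩
  sets_of_superset := fun {S T} hS hST B => by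
    obtain ⟨e, he, R, h⟩ := hS B
    exact ⟨e, he, R, h.trans hST⟩
  inter_sets := fun {S T} hS hT B => by
    obtain ⟨e, he, R, h⟩ := hS B
    obtain ⟨e', he', R', h'⟩ := hT B
    refine ⟨min e e', lt_min he he', max R R', Set.subset_inter ?_ ?_⟩
    · exact (reg_mono a b (min_le_left _ _) le_rfl (le_max_left _ _)).trans h
    · exact (reg_mono a b (min_le_right _ _) le_rfl (le_max_right _ _)).trans h'

theorem mem_fl (a b : L →+ ℝ) (S : Set L) :
    S ∈ FL a b ↔ ∀ B : ℝ, ∃ e : ℝ, 0 < e ∧ ∃ R : ℝ, Reg a b e B R ⊆ S := Iff.rfl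

theorem ev_fl (a b : L →+ ℝ) (P : L → Prop) :
    (∀ᶠ m in FL a b, P m) ↔ ∀ B : ℝ, ∃ e : ℝ, 0 < e ∧ ∃ R : ℝ, ∀ m ∈ Reg a b e B R, P m := Iff.rfl

/-- a polynomial function along the lines `m + ℤ H` -/
def PL (H : L) (Q : L → ℝ) : Prop := ∀ m, ∃ P : Polynomial ℝ, ∀ n : ℤ, Q (m + n • H) = P.eval (n : ℝ)

/-- `f = Q` at `m + n H`, for all large `n` -/
def Ev (H : L) (f Q : L → ℝ) : Prop := ∀ m, ∃ n₀ : ℕ, ∀ n : ℕ, n₀ ≤ n → f (m + n • H) = Q (m + n • H)

/-- `g` bounds the difference of `f` in the direction `G` -/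
def Stp (H G : L) (f g : L → ℝ) : Prop :=
  (∀ m, f m ≤ f (m - G) + g m) ∧
    ∀ m, ∃ n₀ : ℕ, ∀ n : ℕ, n₀ ≤ n → f (m + n • H) = f (m + n • H - G) + g (m + n • H)

/-- `g` is linear plus constant where finitely many degrees are large -/
def NL (A : Set L) (g : L → ℝ) : Prop :=
  ∃ (F : Finset (L →+ ℤ)) (K : ℤ) (l : L →+ ℤ) (c : ℝ), (∀ δ ∈ F, ∀ m ∈ A, 0 < δ m) ∧ (∀ m ∈ A, 0 ≤ l m) ∧
    ∀ m, (∀ δ ∈ F, K ≤ δ m) → g m = l m + c

/-- the surfaces: the numbers of sections `f`, the polynomial `Q` -/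
structure TF (H : L) (A : Set L) (f Q : L → ℝ) : Prop where
  ev : Ev H f Q
  pol : PL H Q
  hH : 0 < f H
  st : ∀ G, 0 < f G → ∃ g, NL A g ∧ Stp H G f g

/-- `g` is at most the polynomial `Q` in the filter -/
structure SF (H : L) (a b : L →+ ℝ) (g Q : L → ℝ) : Prop where
  ev : Ev H g Q
  pol : PL H Q
  le : ∀ᶠ m in FL a b, g m ≤ Q m

/-- additive functions which are positive on `A` have positive coefficients with respect to `a` and `b` -/
def Pt (H : L) (A : Set L) (a b : L →+ ℝ) : Prop :=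
  ∀ δ : L →+ ℤ, (∀ m ∈ A, 0 < δ m) → ∃ c : ℝ, 0 < c ∧ ∀ m, (δ m : ℝ) = δ H * a m + c * b m

end Pool.Agent.H20.TK
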