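import Pool.Agent.H20.TK.Def

/-!
# [H20 TK Fil] THEOREM K: the filter of the large classes
-/

set_option autoImplicit false

open Filter

namespace Pool.Agent.H20.TK

variable {L : Type} [AddCommGroup L] {H : L} {a b : L →+ ℝ}

theorem reg_line (hc : Crd H a b) {e B R : ℝ} {m : L} (hm : m ∈ Reg a b e B R) (n : ℕ) :
    m + n • H ∈ Reg a b e B R := by
  obtain ⟨h1, h2, h3⟩ := hm
  have ea : a (m + n • H) = a m + n := by
    rw [map_add, map_nsmul, hc.aH, nsmul_eq_mul, mul_one]
  have eb : b (m + n • H) = b m := by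
    rw [map_add, map_nsmul, hc.bH, smul_zero, add_zero]
  have hn : (0 : ℝ) ≤ n := n.cast_nonneg
  refine ⟨?_, ?_, ?_⟩
  · rw [ea, eb]; linarith
  · rw [eb]; exact h2
  · rw [ea, eb]; linarith

theorem fl_shift (a b : L →+ ℝ) (c : L) : Tendsto (fun m : L => m + c) (FL a b) (FL a b) := by
  intro S hS B
  obtain ⟨e, he, R, h⟩ := hS (B + |b c|)
  have hac := abs_nonneg (a c)
  have hbc := abs_nonneg (b c)
  obtain ⟨M, hM⟩ : ∃ M, M = 2 * (|a c| + e * |b c|) / e := ⟨_, rfl⟩
  have hM0 : 0 ≤ M := by rw [hM]; positivity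
  have hMe : e * M = 2 * (|a c| + e * |b c|) := by rw [hM]; field_simp
  refine ⟨e / 2, half_pos he, |R| + M + |a c| + |b c|, ?_⟩
  rintro m ⟨h1, h2, h3⟩
  refine h ⟨?_, ?_, ?_⟩
  · rw [map_add, map_add]
    have ha := neg_abs_le (a c)
    have hb1 : |b m| - |b c| ≤ |b m + b c| := by
      have := abs_sub_abs_le_abs_sub (b m) (-(b c))
      rwa [abs_neg, sub_neg_eq_add] at this
    by_cases hbm : M ≤ |b m|
    · have e1 := mul_le_mul_of_nonneg_left hbm he.le
      have e2 := mul_le_mul_of_nonneg_left hb1 he.le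
      nlinarith
    · push Not at hbm
      have e1 := le_abs_self (b m)
      have e2 := abs_nonneg R
      have e3 : 0 ≤ a m + a c := by linarith
      have e4 := abs_nonneg (b m + b c)
      have e5 : 0 ≤ e * |b m + b c| := mul_nonneg he.le e4
      linarith
  · rw [map_add]
    have := neg_abs_le (b c)
    linarith
  · rw [map_add, map_add]
    have e1 := neg_abs_le (a c)
    have e2 := neg_abs_le (b c)
    have e3 := le_abs_self R
    linarith

theorem fl_line (hc : Crd H a b) (m : L) : Tendsto (fun n : ℕ => m + n • H) atTop (FL a b) := by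
  intro S hS
  obtain ⟨e, he, R, h⟩ := hS |b m|
  obtain ⟨N, hN⟩ := exists_nat_ge (|R| + |a m| + |b m|)
  rw [mem_map]
  filter_upwards [eventually_ge_atTop N] with n hn
  have hn' : (N : ℝ) ≤ n := by exact_mod_cast hn
  have ea : a (m + n • H) = a m + n := by
    rw [map_add, map_nsmul, hc.aH, nsmul_eq_mul, mul_one]
  have eb : b (m + n • H) = b m := by
    rw [map_add, map_nsmul, hc.bH, smul_zero, add_zero]
  have h1 := neg_abs_le (a m)
  have h2 := neg_abs_le (b m)
  have h3 := le_abs_self R
  have h4 := abs_nonneg R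
  have h5 := abs_nonneg (b m)
  refine h ⟨?_, ?_, ?_⟩
  · rw [ea, eb]
    have := mul_nonneg he.le h5
    linarith
  · rw [eb]; exact h2
  · rw [ea, eb]; linarith

/-- a linear form with positive coefficients tends to infinity -/
theorem fl_lin (a b : L →+ ℝ) {α β : ℝ} (hα : 0 < α) (hβ : 0 < β) :
    Tendsto (fun m : L => α * a m + β * b m) (FL a b) atTop := by
  rw [tendsto_atTop]
  intro K
  rw [ev_fl]
  intro B
  obtain ⟨c, hc⟩ : ∃ c, c = min α (β / 2) := ⟨_, rfl⟩
  have hc0 : 0 < c := by rw [hc]; exact lt_min hα (half_pos hβ)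
  have hcα : c ≤ α := by rw [hc]; exact min_le_left _ _
  have hcβ : c ≤ β / 2 := by rw [hc]; exact min_le_right _ _
  refine ⟨β / (2 * α), by positivity, (|K| + β * |B|) / c, ?_⟩
  rintro m ⟨h1, h2, h3⟩
  rw [div_le_iff₀ hc0] at h3
  have hK := le_abs_self K
  have hK0 := abs_nonneg K
  have hB := le_abs_self B
  have hB0 : 0 ≤ β * |B| := mul_nonneg hβ.le (abs_nonneg B)
  by_cases hb : 0 ≤ b m
  · rw [abs_of_nonneg hb] at h1
    by_cases ha : 0 ≤ a m
    · have e1 := mul_le_mul_of_nonneg_right hcα ha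
      have e2 := mul_le_mul_of_nonneg_right hcβ hb
      nlinarith
    · push Not at ha
      have e1 : α * (-(β / (2 * α) * b m)) ≤ α * a m := mul_le_mul_of_nonneg_left h1 hα.le
      have e2 : α * (-(β / (2 * α) * b m)) = -(β / 2 * b m) := by
        field_simp
      have e3 := mul_le_mul_of_nonneg_right hcβ hb
      nlinarith
  · push Not at hb
    have e0 : 0 < a m := by
      by_contra hcon
      push Not at hcon
      nlinarith
    have e1 := mul_le_mul_of_nonneg_right hcα e0.le
    have e2 : β * b m ≥ -(β * |B|) := by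
      have : -|B| ≤ b m := by linarith
      nlinarith
    nlinarith

end Pool.Agent.H20.TK
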