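import Pool.Agent.H20.TK.Chi
import Pool.Agent.H39.TK.Use
import Pool.Agent.H83.TK.Dim
import Pool.Agent.H83.TK.SubE
import Pool.Agent.H41.TK.DG
import Pool.Agent.H32.TK.Surf

/-!
# [H20 TK Geo] THEOREM K: the functions of the closed subvarieties of dimension `≤ 1`, the step for a surface

* `SerP k`: the theorem of Serre (T2): for every projective variety over `k`, homogeneous ideals satisfy the ascending
  chain condition, spaces of sections are finite dimensional, restriction to closed subvarieties is onto for large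
  multiples.
* `nl_curve`, `nl_piece`: for a curve or a point the numbers of sections are `NL`.
* `gt`: the surfaces satisfy `TF`.
-/

set_option autoImplicit false

open Filter

namespace Pool.Agent.H20.TK

open Pool.Agent.H57.KM Pool.Agent.H54.RV Pool.Agent.H83.TU Pool.Agent.H83.TK Pool.Agent.H39.TK

/-- the theorem of Serre for all projective varieties over `k` -/
def SerP (k : Type) [Field k] : Prop :=
  ∀ (κ : Type) [Field κ] [Algebra k κ] (Z : Mod k κ) (hZ : IsVar Z), (∃ g, Gen Z g) → ∀ A : Cart Z, Ample A →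
    Noe A ∧ FinX Z ∧ FinZ hZ ∧ Ser hZ A

/-- base point free divisors -/
def Bpf {k K : Type} [Field k] [Field K] [Algebra k K] {X : Mod k K} (H : Cart X) : Prop :=
  ∀ x, ∃ s : K, Sec H 1 s ∧ x ∈ nz H 1 s

variable {k K : Type} [Field k] [Field K] [Algebra k K] {X : Mod k K}
  {ν : Cart X →* Multiplicative (Fin 2 → ℤ)} {H : Fin 2 → ℤ} {b : Fin 2 → Cart X}

/-- the numbers of sections on a curve -/
theorem nl_curve [CharZero k] {κ : Type} [Field κ] [Algebra k κ] {C : Mod k κ} (hC : H41.TK.Crv C)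
    (φ : Cart X →* Cart C) (hφ : ∀ A : Cart X, Ample A → Ample (φ A)) (hX : IsVar X) (hν : Num ν)
    (hb : ∀ i, cv ν (b i) = Pi.single i 1) :
    NL {m | toR m ∈ AmpV ν} (fun m => (h0 (φ (bas b m)) 1 : ℝ)) := by
  let δ : (Fin 2 → ℤ) →+ ℤ :=
    { toFun := fun m => H41.TK.dg (φ (bas b m))
      map_zero' := by
        rw [bas_zero, map_one, H41.TK.dg_one]
      map_add' := fun m n => by
        rw [bas_add, map_mul, H41.TK.dg_mul hC] }
  have hδ : ∀ m ∈ {m : Fin 2 → ℤ | toR m ∈ AmpV ν}, 0 < δ m := fun m hm =>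
    H41.TK.dg_ample hC _ (hφ _ ((amp_bas hX hν hb m).2 hm))
  refine ⟨{δ}, - 2 * H41.TK.chi C + 1, δ, H41.TK.chi C, fun d hd => ?_, fun m hm => (hδ m hm).le, fun m hm => ?_⟩
  · rw [Finset.mem_singleton.1 hd]
    exact hδ
  · have h1 : - 2 * H41.TK.chi C < H41.TK.dg (φ (bas b m)) := by
      have := hm δ (Finset.mem_singleton_self δ)
      change _ ≤ H41.TK.dg (φ (bas b m)) at this
      omega
    have h2 := H41.TK.h0_eq hC _ h1
    have h3 : ((h0 (φ (bas b m)) 1 : ℤ) : ℝ) = ((H41.TK.dg (φ (bas b m)) + H41.TK.chi C : ℤ) : ℝ) := by rw [h2]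
    push_cast at h3
    exact h3

/-- the numbers of sections on a closed subvariety of dimension at most one -/
theorem nl_piece [CharZero k] [IsAlgClosed k] {κ : Type} [Field κ] [Algebra k κ] {C : Mod k κ} (hC : IsVar C)
    (hg : ∃ g, Gen C g) (htr : Algebra.trdeg k κ < 2)
    (φ : Cart X →* Cart C) (hφ : ∀ A : Cart X, Ample A → Ample (φ A)) (hX : IsVar X) (hA : ∃ A : Cart X, Ample A)
    (hν : Num ν) (hb : ∀ i, cv ν (b i) = Pi.single i 1) :
    NL {m | toR m ∈ AmpV ν} (fun m => (h0 (φ (bas b m)) 1 : ℝ)) := by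
  obtain ⟨n, hn⟩ := Cardinal.lt_aleph0.1 (htr.trans (by exact_mod_cast Cardinal.natCast_lt_aleph0 (n := 2)))
  have hn2 : n < 2 := by
    rw [hn] at htr
    exact_mod_cast htr
  obtain ⟨A, hA⟩ := hA
  rcases Nat.lt_succ_iff_lt_or_eq.1 hn2 with h1 | h1
  · have h2 : n = 0 := by omega
    rw [h2, Nat.cast_zero] at hn
    simp only [h0_pt hn]
    exact nl_const _
  · rw [h1, Nat.cast_one] at hn
    exact nl_curve ⟨hC, hg, ⟨φ A, hφ A hA⟩, hn⟩ φ hφ hX hν hb

/-- the divisors `W - c H` -/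
theorem bas_shift (m : Fin 2 → ℤ) (c : ℕ) : bas b m * (bas b H ^ c)⁻¹ = bas b (m + -(c • H)) := by
  rw [← sub_eq_add_neg, bas_sub, bas_nsmul]

/-- the number of sections of `D - E`, `E` the divisor of a section of `G` -/
theorem h0_prin_inv (D G : Cart X) (s : K) (hs : s ≠ 0) : h0 (D * (prin X s hs * G)⁻¹) 1 = h0 (D * G⁻¹) 1 := by
  have h1 : D * (prin X s hs * G)⁻¹ = D * G⁻¹ * (prin X s hs)⁻¹ := by
    rw [mul_inv_rev, mul_assoc]
  have h2 := H41.TK.h0_prin (D * G⁻¹ * (prin X s hs)⁻¹) s hs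
  rw [inv_mul_cancel_right] at h2
  rw [h1, h2]

/-- a divisor with sections has an effective representative -/
theorem eff_of_pos (G : Cart X) (h : 0 < h0 G 1) : ∃ (s : K) (hs : s ≠ 0), Effective (prin X s hs * G) := by
  have h1 : ∃ s : secL G 1, s ≠ 0 := by
    by_contra h2
    push Not at h2
    have h3 : Subsingleton (secL G 1) := ⟨fun a b => by rw [h2 a, h2 b]⟩
    unfold h0 at h
    rw [Module.finrank_zero_of_subsingleton] at h
    exact lt_irrefl _ h
  obtain ⟨s, hs⟩ := h1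
  have hs0 : (s : K) ≠ 0 := fun h0 => hs (Subtype.ext h0)
  refine ⟨s, hs0, fun x => ?_⟩
  have := s.2 x
  rw [pow_one] at this
  exact this

/-- the step for the divisor of a section, on a variety `Z` with a homomorphism `φ` from the divisors of `X` -/
theorem step_of {κ : Type} [Field κ] [Algebra k κ] {Z : Mod k κ} (hZ : IsVar Z) (hg : ∃ g, Gen Z g)
    (hSP : SerP k) (φ : Cart X →* Cart Z) (hH : Ample (φ (bas b H))) (G : Fin 2 → ℤ)
    (hG : 0 < h0 (φ (bas b G)) 1) :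
    ∃ (r : ℕ) (ζ : Fin r → Z.P) (c : Fin r → ℕ), (∀ i, Algebra.trdeg k (Z.kap (ζ i)) < Algebra.trdeg k κ) ∧
      Stp H G (fun m => (h0 (φ (bas b m)) 1 : ℝ))
        (fun m => ∑ i, (h0 (resD hZ (ζ i) (φ (bas b (m + -(c i • H))))) 1 : ℝ)) := by
  obtain ⟨hN, hF, hFZ, hS⟩ := hSP κ Z hZ hg _ hH
  obtain ⟨s, hs, hE⟩ := eff_of_pos _ hG
  obtain ⟨r, ζ, c, h1, h2, h3⟩ := chain_eff hZ hg (φ (bas b H)) hH hN hF hFZ hS _ hE
  obtain ⟨g, hgg⟩ := hg
  have key : ∀ (m : Fin 2 → ℤ) (i : Fin r),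
      φ (bas b m) * (φ (bas b H) ^ c i)⁻¹ = φ (bas b (m + -(c i • H))) := by
    intro m i
    rw [← map_pow, ← map_inv, ← map_mul, bas_shift]
  have key2 : ∀ m : Fin 2 → ℤ, h0 (φ (bas b m) * (prin Z s hs * φ (bas b G))⁻¹) 1 = h0 (φ (bas b (m - G))) 1 := by
    intro m
    rw [h0_prin_inv, ← map_inv, ← map_mul, bas_sub]
  refine ⟨r, ζ, c, fun i => trdeg_lt_eq hZ hgg _ (h3 i), fun m => ?_, fun m => ?_⟩
  · have h4 := h1 (φ (bas b m))
    rw [key2] at h4
    simp only [key] at h4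
    show (h0 (φ (bas b m)) 1 : ℝ) ≤ (h0 (φ (bas b (m - G))) 1 : ℝ) + ∑ i, _
    exact_mod_cast h4
  · obtain ⟨n₀, hn⟩ := h2 (φ (bas b m))
    refine ⟨n₀, fun n hn' => ?_⟩
    have h4 := hn n hn'
    have h5 : φ (bas b m) * φ (bas b H) ^ n = φ (bas b (m + n • H)) := by
      rw [← map_pow, ← map_mul, bas_line]
    rw [h5, key2] at h4
    simp only [key] at h4
    show (h0 (φ (bas b (m + n • H))) 1 : ℝ) = (h0 (φ (bas b (m + n • H - G))) 1 : ℝ) + ∑ i, _
    exact_mod_cast h4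

/-- the surfaces -/
theorem gt [CharZero k] [IsAlgClosed k] (h : Hyp X) (hν : Num ν) (hb : ∀ i, cv ν (b i) = Pi.single i 1)
    {q : Fin 4 → ℝ} {l : V 2 →ₗ[ℝ] ℝ} {c : ℝ} (hcy : CY q l c ν) (hSP : SerP k) {ζ : X.P}
    (htr : Algebra.trdeg k (X.kap ζ) = 2) {S : Cart X} (hS : SPr X ζ S) (hH : Ample (bas b H))
    (hB : Bpf (bas b H)) :
    TF H {m | toR m ∈ AmpV ν} (fun m => (h0 (resD h.var ζ (bas b m)) 1 : ℝ))
      (fun m => chT q l c (toR (cz ν S)) (toR m)) where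
  ev := by
    intro m
    obtain ⟨-, hF, -, hS'⟩ := hSP K X h.var h.gen _ hH
    obtain ⟨n1, h1⟩ := hS' ζ (bas b m)
    obtain ⟨n2, h2⟩ := hcy.ev (bas b m) _ hH
    obtain ⟨n3, h3⟩ := hcy.ev (bas b m * S⁻¹) _ hH
    refine ⟨n1 + n2 + n3, fun n hn => ?_⟩
    have e1 := h1 n (by omega)
    have e2 := h2 n (by omega)
    have e3 := h3 n (by omega)
    have := hF (bas b m * bas b H ^ n)
    have e4 := ex_dim h.var hS (bas b m * bas b H ^ n) 1
    rw [LinearMap.range_eq_top.2 e1, finrank_top, pow_one] at e4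
    have e5 : bas b m * S⁻¹ * bas b H ^ n = bas b m * bas b H ^ n * S⁻¹ := mul_right_comm _ _ _
    rw [e5, cv_mul, cv_inv] at e3
    rw [← bas_line] at e2 e3 e4
    rw [cv_bas hb] at e2 e3
    show (h0 (resD h.var ζ (bas b (m + n • H))) 1 : ℝ) = chT q l c (toR (cz ν S)) (toR (m + n • H))
    unfold chT
    rw [toR_cz, sub_eq_add_neg (toR (m + n • H)), ← e2, ← e3, e4]
    push_cast
    unfold h0
    ring
  pol := pl_chT q l c _
  hH := by
    obtain ⟨s, hs1, hs2⟩ := hB ζ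
    obtain ⟨-, -, hFZ, -⟩ := hSP K X h.var h.gen _ hH
    have := hFZ ζ (resD h.var ζ (bas b H))
    have h1 : resS h.var ζ (bas b H) 1 ⟨s, hs1⟩ ≠ 0 := fun h2 => (resS_zero h.var ζ _ 1 ⟨s, hs1⟩).1 h2 hs2
    have h2 : 0 < h0 (resD h.var ζ (bas b H)) 1 :=
      H32.TK.pos_of_sec _ this (resS h.var ζ (bas b H) 1 ⟨s, hs1⟩).2 fun h3 => h1 (Subtype.ext h3)
    exact_mod_cast h2
  st := by
    intro G hG
    have hG' : 0 < h0 (resD h.var ζ (bas b G)) 1 := by exact_mod_cast hG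
    obtain ⟨r, ζ', c', h1, h2⟩ := step_of (H := H) (isVar_sub h.var ζ) ⟨_, gen_sub h.var ζ⟩ hSP
      (resD h.var ζ) (res_ample h.var ζ _ hH) G hG'
    refine ⟨_, ?_, h2⟩
    refine nl_sum _ _ fun i _ => ?_
    refine nl_shift (g := fun m => (h0 (resD (isVar_sub h.var ζ) (ζ' i) (resD h.var ζ (bas b m))) 1 : ℝ)) ?_ _
    exact nl_piece (isVar_sub _ _) ⟨_, gen_sub _ _⟩ (by rw [← htr]; exact h1 i)
      ((resD (isVar_sub h.var ζ) (ζ' i)).comp (resD h.var ζ))
      (fun A hA => res_ample _ _ _ (res_ample _ _ _ hA)) h.var h.amp hν hb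

end Pool.Agent.H20.TK
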