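import Pool.Agent.H20.TK.Asm
import Pool.Agent.H39.TK.NoB
import Pool.Agent.H24.TK.Ser
import Pool.Agent.H24.TK.Fin

/-!
# [H20 TK K0] THEOREM K, first part: the nef cone is rational polyhedral

`serP`: the theorem of Serre.  `k0`: under the hypothesis `CY` the nef cone is generated by two integral classes, it has a
rational polyhedral fundamental domain for the automorphisms, and the effective nef cone has one if and only if all nef
classes are effective.
-/

set_option autoImplicit false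

open Filter

namespace Pool.Agent.H20.TK

open Pool.Agent.H57.KM Pool.Agent.H54.RV Pool.Agent.H83.TU Pool.Agent.H83.TK Pool.Agent.H39.TK Pool.Agent.H32.TK

/-- the theorem of Serre -/
theorem serP (k : Type) [Field k] [CharZero k] : SerP k := fun κ _ _ Z hZ hg A hA =>
  ⟨noe_amp hZ hg hA, fun D => H24.TK.fd hZ hg hA D,
    fun ζ D => H24.TK.fd (isVar_sub hZ ζ) ⟨_, gen_sub hZ ζ⟩ (res_ample hZ ζ A hA) D,
    fun ζ W => H24.TK.ser_ample hZ hA ζ W⟩

variable {k K : Type} [Field k] [Field K] [Algebra k K] {X : Mod k K}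
  {ν : Cart X →* Multiplicative (Fin 2 → ℤ)} {q : Fin 4 → ℝ} {l : V 2 →ₗ[ℝ] ℝ} {c : ℝ}

theorem k0 [CharZero k] [IsAlgClosed k] (h : Hyp X) (hsm : ∀ x, H39.TU.SmP X x) (Γ : Subgroup (MAut X))
    (hν : Num ν) (hcy : CY q l c ν) :
    (∃ u w : Fin 2 → ℤ, closure (AmpV ν) = {v | ∃ a c : ℝ, 0 ≤ a ∧ 0 ≤ c ∧ v = a • toR u + c • toR w}) ∧
      FundV (autN Γ ν) (closure (AmpV ν)) ∧
      (FundV (autN Γ ν) (closure (AmpV ν) ∩ EffV ν) ↔ closure (AmpV ν) ⊆ EffV ν) := by
  have ho := Pool.Agent.H36.TU.ampV_open h.var hν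
  have hAC := Pool.Agent.H36.TU.ac_holds h.var hν
  have hSP := serP k
  have hne : (AmpV ν).Nonempty := by
    obtain ⟨A, hA⟩ := h.amp
    exact ⟨cv ν A, ampV_cv ν A hA⟩
  obtain ⟨F, hF⟩ := exists_F0 h
  have hR := rfun_rf h.var h.gen (uf_all h.var) F hF
  obtain ⟨x, hx⟩ := rfun_lin h hν hR
  have hpt : ∀ v, v ∈ closure (AmpV ν) → -v ∈ closure (AmpV ν) → v = 0 :=
    fun v h1 h2 => nefV_pointed h hν ho hAC _ hR x hx v h1 h2
  have hpos : ∀ v ∈ AmpV ν, 0 ≤ l v := by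
    rintro _ ⟨m, c, D, hc, hD, rfl⟩
    rw [map_sum]
    refine Finset.sum_nonneg fun i _ => ?_
    rw [map_smul]
    exact mul_nonneg (hc i).le (hcy.pos _ (hD i)).le
  have hl0 : l ≠ 0 := by
    rintro rfl
    obtain ⟨A, hA⟩ := h.amp
    have := hcy.pos A hA
    simp at this
  have hlq : ∀ s : Fin 2 → ℤ, ∃ r : ℚ, l (toR s) = r := by
    intro s
    obtain ⟨b, hb⟩ := Pool.Agent.H36.TU.exists_bas hν
    obtain ⟨A, hA⟩ := h.amp
    have hA' : Ample (bas b (cz ν A)) := by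
      rw [amp_bas h.var hν hb, toR_cz]
      exact ampV_cv ν A hA
    obtain ⟨z, hz⟩ := l_rat hcy hb hA' s
    refine ⟨z / 6, ?_⟩
    push_cast
    rw [← hz]
    ring
  have hirr : ∀ p ∈ closure (AmpV ν), p ∉ AmpV ν →
      ∃ (t : ℝ) (s : Fin 2 → ℤ), t ≠ 0 ∧ t • p = toR s := by
    intro p hp hpA
    by_contra hcon
    push Not at hcon
    exact irr_false h hsm hν hcy hSP hp hpA hcon
  obtain ⟨u, w, huw⟩ := nef_rat ν ho hne hpt l hl0 hlq hpos (fun p _ h2 h3 => hirr p h2 h3) (by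
    intro p h1 h2 h3 h4
    by_cases hpA : p ∈ AmpV ν
    · refine h2 (interior_maximal (ampV_effV h.var hν) ho hpA)
    · obtain ⟨t, s, ht, hs⟩ := hirr p h1 hpA
      exact h3 t s ht hs)
  have hint : (interior (closure (AmpV ν))).Nonempty := by
    obtain ⟨a, ha⟩ := hne
    exact ⟨a, interior_mono subset_closure (by rwa [ho.interior_eq])⟩
  refine ⟨⟨u, w, huw⟩, fund_plane _ _ u w huw hint fun g hg v hv => autN_nef Γ ν g hg v hv, ?_⟩
  refine q1_plane _ _ _ u w huw hint (fun g hg v hv => autN_nef Γ ν g hg v hv) ?_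
  have h1 : interior (closure (AmpV ν)) = AmpV ν := by
    rw [(ampV_conv (ν := ν)).interior_closure_eq_interior_of_nonempty_interior, ho.interior_eq]
    rwa [ho.interior_eq]
  rw [h1]
  exact ampV_effV h.var hν

end Pool.Agent.H20.TK
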