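import Pool.Agent.H20.TK.Tau
import Pool.Agent.H83.TU.CC
import Pool.Agent.H83.TU.RX
import Pool.Agent.H83.TU.UB
import Pool.Agent.H83.TU.RC
import Pool.Agent.H32.TK.Nak

/-!
# [H20 TK Pln] THEOREM K: coordinates with respect to the class of an ample divisor and an irrational boundary class

`Cor ν p H x y`: `x`, `y` linear forms on `ℝ²` with `x (toR H) = 0`, `y (toR H) = 1`, `y p = 0`, `x p > 0`.
-/

set_option autoImplicit false

open Filter

namespace Pool.Agent.H20.TK

open Pool.Agent.H57.KM Pool.Agent.H54.RV Pool.Agent.H83.TU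

theorem toR_add (s t : Fin 2 → ℤ) : toR (s + t) = toR s + toR t := by
  funext i
  simp [toR]

theorem toR_sub (s t : Fin 2 → ℤ) : toR (s - t) = toR s - toR t := by
  funext i
  simp [toR]

theorem toR_zero : toR (0 : Fin 2 → ℤ) = 0 := by
  funext i
  simp [toR]

theorem toR_nsmul (n : ℕ) (s : Fin 2 → ℤ) : toR (n • s) = (n : ℝ) • toR s := by
  funext i
  simp [toR]

theorem toR_zsmul (n : ℤ) (s : Fin 2 → ℤ) : toR (n • s) = (n : ℝ) • toR s := by
  funext i
  simp [toR]

theorem toR_inj {s t : Fin 2 → ℤ} (h : toR s = toR t) : s = t := by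
  funext i
  have := congrFun h i
  unfold toR at this
  exact_mod_cast this

/-- a linear form as an additive function on the lattice -/
noncomputable def cof (y : V 2 →ₗ[ℝ] ℝ) : (Fin 2 → ℤ) →+ ℝ where
  toFun m := y (toR m)
  map_zero' := by rw [toR_zero, map_zero]
  map_add' s t := by rw [toR_add, map_add]

@[simp] theorem cof_apply (y : V 2 →ₗ[ℝ] ℝ) (m : Fin 2 → ℤ) : cof y m = y (toR m) := rfl

/-- an additive function on the lattice as a linear form -/
noncomputable def ext (δ : (Fin 2 → ℤ) →+ ℤ) : V 2 →ₗ[ℝ] ℝ :=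
  (δ (Pi.single 0 1) : ℝ) • LinearMap.proj 0 + (δ (Pi.single 1 1) : ℝ) • LinearMap.proj 1

theorem ext_apply (δ : (Fin 2 → ℤ) →+ ℤ) (v : V 2) :
    ext δ v = δ (Pi.single 0 1) * v 0 + δ (Pi.single 1 1) * v 1 := rfl

theorem ext_toR (δ : (Fin 2 → ℤ) →+ ℤ) (m : Fin 2 → ℤ) : ext δ (toR m) = δ m := by
  have h1 : m = m 0 • (Pi.single 0 1 : Fin 2 → ℤ) + m 1 • (Pi.single 1 1 : Fin 2 → ℤ) := by
    funext i
    fin_cases i <;> simp
  have h2 : δ m = m 0 * δ (Pi.single 0 1) + m 1 * δ (Pi.single 1 1) := by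
    conv_lhs => rw [h1]
    rw [map_add, map_zsmul, map_zsmul, smul_eq_mul, smul_eq_mul]
  rw [ext_apply, h2]
  unfold toR
  push_cast
  ring

variable {k K : Type} [Field k] [Field K] [Algebra k K] {X : Mod k K}

/-- coordinates of the plane with respect to the class `H` and the boundary class `p` -/
structure Cor (ν : Cart X →* Multiplicative (Fin 2 → ℤ)) (p : V 2) (H : Fin 2 → ℤ) (x y : V 2 →ₗ[ℝ] ℝ) : Prop where
  yp : y p = 0
  xp : 0 < x p
  yH : y (toR H) = 1
  xH : x (toR H) = 0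
  inj : ∀ v, x v = 0 → y v = 0 → v = 0
  xint : ∀ m : Fin 2 → ℤ, ∃ z : ℤ, x (toR m) = z
  yamp : ∀ v ∈ AmpV ν, 0 < y v
  yirr : ∀ m : Fin 2 → ℤ, y (toR m) = 0 → m = 0

variable {ν : Cart X →* Multiplicative (Fin 2 → ℤ)} {p : V 2} {H : Fin 2 → ℤ} {x y : V 2 →ₗ[ℝ] ℝ}

theorem Cor.dec (hc : Cor ν p H x y) (v : V 2) : v = y v • toR H + (x v / x p) • p := by
  have h1 := hc.inj (v - (y v • toR H + (x v / x p) • p)) (by
    rw [map_sub, map_add, map_smul, map_smul, smul_eq_mul, smul_eq_mul, hc.xH, mul_zero, zero_add,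
      div_mul_cancel₀ _ hc.xp.ne', sub_self]) (by
    rw [map_sub, map_add, map_smul, map_smul, smul_eq_mul, smul_eq_mul, hc.yH, hc.yp, mul_zero, mul_one, add_zero,
      sub_self])
  exact sub_eq_zero.1 h1

theorem Cor.crd (hc : Cor ν p H x y) : Crd H (cof y) (cof x) where
  aH := hc.yH
  bH := hc.xH
  fin R := by
    obtain ⟨N, hN⟩ := exists_nat_ge (R * (|(H 0 : ℝ)| + |(H 1 : ℝ)|) + R / x p * (|p 0| + |p 1|))
    refine (Set.finite_Icc (fun _ : Fin 2 => -(N : ℤ)) (fun _ => (N : ℤ))).subset fun m hm => ?_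
    obtain ⟨h1, h2⟩ := hm
    rw [cof_apply] at h1 h2
    have hR : 0 ≤ R := (abs_nonneg _).trans h1
    have key : ∀ i, |(m i : ℝ)| ≤ N := by
      intro i
      have h3 := congrFun (hc.dec (toR m)) i
      have h4 : (m i : ℝ) = y (toR m) * (H i : ℝ) + x (toR m) / x p * p i := by
        have : toR m i = (m i : ℝ) := rfl
        rw [← this, h3]
        rfl
      have h5 : |x (toR m) / x p| ≤ R / x p := by
        rw [abs_div, abs_of_pos hc.xp]
        exact div_le_div_of_nonneg_right h2 hc.xp.le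
      have h6 : |(m i : ℝ)| ≤ R * |(H i : ℝ)| + R / x p * |p i| := by
        rw [h4]
        refine (abs_add_le _ _).trans ?_
        rw [abs_mul, abs_mul]
        exact add_le_add (mul_le_mul_of_nonneg_right h1 (abs_nonneg _)) (mul_le_mul_of_nonneg_right h5 (abs_nonneg _))
      have h7 : |(H i : ℝ)| ≤ |(H 0 : ℝ)| + |(H 1 : ℝ)| := by
        fin_cases i
        · exact le_add_of_nonneg_right (abs_nonneg _)
        · exact le_add_of_nonneg_left (abs_nonneg _)
      have h8 : |p i| ≤ |p 0| + |p 1| := by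
        fin_cases i
        · exact le_add_of_nonneg_right (abs_nonneg _)
        · exact le_add_of_nonneg_left (abs_nonneg _)
      have h9 : 0 ≤ R / x p := div_nonneg hR hc.xp.le
      have e1 := mul_le_mul_of_nonneg_left h7 hR
      have e2 := mul_le_mul_of_nonneg_left h8 h9
      linarith
    refine ⟨fun i => ?_, fun i => ?_⟩
    · have := (abs_le.1 (key i)).1
      exact_mod_cast this
    · have := (abs_le.1 (key i)).2
      exact_mod_cast this

/-- an additive integral function which is nonnegative on the ample classes -/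
theorem ext_nonneg (ho : IsOpen (AmpV ν)) (δ : (Fin 2 → ℤ) →+ ℤ) (h : ∀ m, toR m ∈ AmpV ν → 0 ≤ δ m)
    {v : V 2} (hv : v ∈ closure (AmpV ν)) : 0 ≤ ext δ v := by
  have hcont : Continuous (ext δ) := LinearMap.continuous_of_finiteDimensional _
  have hcl : IsClosed {v : V 2 | 0 ≤ ext δ v} := isClosed_le continuous_const hcont
  refine closure_minimal ?_ hcl hv
  intro w hw
  by_contra hcon
  have hlt : ext δ w < 0 := not_le.1 hcon
  have hU : IsOpen (AmpV ν ∩ {v : V 2 | ext δ v < 0}) := ho.inter (isOpen_lt hcont continuous_const)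
  obtain ⟨q, hq1, hq2⟩ := exists_rat hU ⟨w, hw, hlt⟩
  obtain ⟨d, hd⟩ : ∃ d : ℕ, d = (q 0).den * (q 1).den := ⟨_, rfl⟩
  have hd0 : (0 : ℝ) < d := by
    rw [hd]
    exact_mod_cast Nat.mul_pos (q 0).den_pos (q 1).den_pos
  obtain ⟨m, hm⟩ : ∃ m : Fin 2 → ℤ, toR m = (d : ℝ) • qR q := by
    refine ⟨![(q 0).num * (q 1).den, (q 1).num * (q 0).den], ?_⟩
    have e0 : ((q 0 : ℚ) : ℝ) = ((q 0).num : ℝ) / ((q 0).den : ℝ) := by
      exact_mod_cast (Rat.num_div_den (q 0)).symm
    have e1 : ((q 1 : ℚ) : ℝ) = ((q 1).num : ℝ) / ((q 1).den : ℝ) := by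
      exact_mod_cast (Rat.num_div_den (q 1)).symm
    have n0 : ((q 0).den : ℝ) ≠ 0 := by exact_mod_cast (q 0).den_pos.ne'
    have n1 : ((q 1).den : ℝ) ≠ 0 := by exact_mod_cast (q 1).den_pos.ne'
    funext i
    fin_cases i
    · show (((q 0).num * (q 1).den : ℤ) : ℝ) = (d : ℝ) * ((q 0 : ℚ) : ℝ)
      rw [e0, hd]
      push_cast
      field_simp
    · show (((q 1).num * (q 0).den : ℤ) : ℝ) = (d : ℝ) * ((q 1 : ℚ) : ℝ)
      rw [e1, hd]
      push_cast
      field_simp
  have h1 := h m (by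
    rw [hm]
    exact ampV_smul hd0 hq1)
  have h2 : (0 : ℝ) ≤ ext δ (toR m) := by
    rw [ext_toR]
    exact_mod_cast h1
  rw [hm, map_smul, smul_eq_mul] at h2
  have h3 : ext δ (qR q) < 0 := hq2
  nlinarith

/-- an additive integral function vanishing at `p` is zero -/
theorem Cor.ext_zero (hc : Cor ν p H x y) (δ : (Fin 2 → ℤ) →+ ℤ) (h : ext δ p = 0) (m : Fin 2 → ℤ) : δ m = 0 := by
  obtain ⟨s, hs⟩ : ∃ s : Fin 2 → ℤ, s = ![δ (Pi.single 1 1), -δ (Pi.single 0 1)] := ⟨_, rfl⟩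
  have h1 : ext δ (toR s) = 0 := by
    rw [ext_apply, hs]
    simp [toR]
    ring
  have h2 := hc.dec (toR s)
  have h3 : ext δ (toR s) = y (toR s) * ext δ (toR H) + x (toR s) / x p * ext δ p := by
    conv_lhs => rw [h2]
    rw [map_add, map_smul, map_smul, smul_eq_mul, smul_eq_mul]
  rw [h1, h, mul_zero, add_zero] at h3
  rcases mul_eq_zero.1 h3.symm with h4 | h4
  · have h5 := hc.yirr s h4
    have h6 : δ (Pi.single 1 1) = 0 := by
      have := congrFun h5 0
      rw [hs] at this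
      simpa using this
    have h7 : δ (Pi.single 0 1) = 0 := by
      have := congrFun h5 1
      rw [hs] at this
      simpa using this
    have h8 := ext_toR δ m
    rw [ext_apply, h6, h7] at h8
    have : (δ m : ℝ) = 0 := by rw [← h8]; simp
    exact_mod_cast this
  · have h8 := ext_toR δ m
    have h9 := hc.dec (toR m)
    rw [h9, map_add, map_smul, map_smul, h4, h, smul_zero, smul_zero, add_zero] at h8
    exact_mod_cast h8.symm

theorem Cor.pt (hc : Cor ν p H x y) (ho : IsOpen (AmpV ν)) (hp : p ∈ closure (AmpV ν)) (hH : toR H ∈ AmpV ν) :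
    Pt H {m | toR m ∈ AmpV ν} (cof y) (cof x) := by
  intro δ hδ
  have h1 : 0 ≤ ext δ p := ext_nonneg ho δ (fun m hm => (hδ m hm).le) hp
  have h2 : ext δ p ≠ 0 := fun h0 => by
    have := hδ H hH
    rw [hc.ext_zero δ h0 H] at this
    exact lt_irrefl _ this
  refine ⟨ext δ p / x p, div_pos (lt_of_le_of_ne h1 h2.symm) hc.xp, fun m => ?_⟩
  have h3 := hc.dec (toR m)
  have h4 : ext δ (toR m) = y (toR m) * ext δ (toR H) + x (toR m) / x p * ext δ p := by
    conv_lhs => rw [h3]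
    rw [map_add, map_smul, map_smul, smul_eq_mul, smul_eq_mul]
  rw [ext_toR, ext_toR] at h4
  rw [h4, cof_apply, cof_apply]
  ring

/-- from the filter to a region -/
theorem fl_reg {P : (Fin 2 → ℤ) → Prop} (h : ∀ᶠ m in FL (cof y) (cof x), P m) :
    ∃ δ > (0 : ℝ), ∃ X₀ : ℝ, ∀ m, X₀ ≤ x (toR m) → |y (toR m)| ≤ δ * x (toR m) → P m := by
  rw [ev_fl] at h
  obtain ⟨e, he, R, hR⟩ := h 0
  refine ⟨min e (1 / 2), lt_min he (by norm_num), 2 * |R|, fun m h1 h2 => hR m ⟨?_, ?_, ?_⟩⟩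
  · rw [cof_apply, cof_apply]
    have hR0 := abs_nonneg R
    have hx0 : 0 ≤ x (toR m) := by linarith
    rw [abs_of_nonneg hx0]
    have h3 := (abs_le.1 h2).1
    have h4 : min e (1 / 2) * x (toR m) ≤ e * x (toR m) := mul_le_mul_of_nonneg_right (min_le_left _ _) hx0
    linarith
  · rw [cof_apply]
    have hR0 := abs_nonneg R
    linarith
  · rw [cof_apply, cof_apply]
    have hR0 := abs_nonneg R
    have hR1 := le_abs_self R
    have hx0 : 0 ≤ x (toR m) := by linarith
    have h3 := (abs_le.1 h2).1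
    have h4 : min e (1 / 2) * x (toR m) ≤ 1 / 2 * x (toR m) := mul_le_mul_of_nonneg_right (min_le_right _ _) hx0
    linarith

end Pool.Agent.H20.TK
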