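import Pool.Agent.H32.TK.B1C
import Pool.Agent.H20.TK.Pln
import Pool.Agent.H20.TK.Chi

/-!
# [H20 TK Nef] THEOREM K: the cubic form on nef classes

`tau_aab`: `A² B ≥ 0` for ample divisors.  `tau_aan`: `A² N ≥ 0` for `N` nef and `A` ample.  `tau_nna`: `N² A ≥ 0`.
-/

set_option autoImplicit false

open Filter

namespace Pool.Agent.H20.TK

open Pool.Agent.H57.KM Pool.Agent.H54.RV Pool.Agent.H83.TU

variable {k K : Type} [Field k] [Field K] [Algebra k K] {X : Mod k K}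
  {ν : Cart X →* Multiplicative (Fin 2 → ℤ)} {q : Fin 4 → ℝ} {l : V 2 →ₗ[ℝ] ℝ} {c : ℝ}

/-- an ample divisor has a multiple with the class of an effective divisor -/
theorem ample_eff (h : Hyp X) (hν : Num ν) {A : Cart X} (hA : Ample A) :
    ∃ (n : ℕ) (E : Cart X), 1 ≤ n ∧ Effective E ∧ cv ν E = (n : ℝ) • cv ν A := by
  obtain ⟨x⟩ := h.var.ne
  obtain ⟨n, hn, s, hs, hx, -⟩ := hA x
  have hs0 : s ≠ 0 := left_ne_zero_of_mul (And.left hx)
  refine ⟨n, prin X s hs0 * A ^ n, hn, fun y => ?_, ?_⟩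
  · rw [mul_eq, pow_eq]
    exact hs y
  · rw [cv_mul, cv_prin hν, cv_pow, zero_add]

/-- a cubic polynomial which is at least its value at `0` for small positive `t` has a nonnegative derivative there -/
theorem lin_nonneg {a b d : ℝ} (h : ∀ i : ℕ, 1 ≤ i → 0 ≤ a * (1 / (i : ℝ)) + b * (1 / (i : ℝ)) ^ 2 + d * (1 / (i : ℝ)) ^ 3) :
    0 ≤ a := by
  have h1 : Tendsto (fun n : ℕ => 1 / (n : ℝ)) atTop (nhds 0) := tendsto_one_div_atTop_nhds_zero_nat
  have h2 : Tendsto (fun n : ℕ => a + b * (1 / (n : ℝ)) + d * (1 / (n : ℝ)) ^ 2) atTop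
      (nhds (a + b * 0 + d * 0 ^ 2)) :=
    ((tendsto_const_nhds.add (tendsto_const_nhds.mul h1)).add (tendsto_const_nhds.mul (h1.pow 2)))
  have h3 : a + b * 0 + d * 0 ^ 2 = a := by ring
  rw [h3] at h2
  refine ge_of_tendsto h2 (eventually_atTop.2 ⟨1, fun i hi => ?_⟩)
  have hi' : (0 : ℝ) < i := by exact_mod_cast hi
  have h4 := h i hi
  have h5 : a * (1 / (i : ℝ)) + b * (1 / (i : ℝ)) ^ 2 + d * (1 / (i : ℝ)) ^ 3 =
      (1 / (i : ℝ)) * (a + b * (1 / (i : ℝ)) + d * (1 / (i : ℝ)) ^ 2) := by ring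
  rw [h5] at h4
  exact nonneg_of_mul_nonneg_right h4 (by positivity)

theorem tau_aab [CharZero k] (h : Hyp X) (hν : Num ν) (hcy : CY q l c ν) {A B : Cart X} (hA : Ample A) (hB : Ample B) :
    0 ≤ tau q (cv ν A) (cv ν A) (cv ν B) := by
  obtain ⟨j, E, hj, hE, hcE⟩ := ample_eff h hν hB
  have hj' : (0 : ℝ) < j := by exact_mod_cast hj
  have ho := Pool.Agent.H36.TU.ampV_open h.var hν
  have h1 : ∀ i : ℕ, 1 ≤ i → 0 ≤ (3 * (j * tau q (cv ν A) (cv ν A) (cv ν B))) * (1 / (i : ℝ)) +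
      (3 * ((j : ℝ) ^ 2 * tau q (cv ν A) (cv ν B) (cv ν B))) * (1 / (i : ℝ)) ^ 2 +
      ((j : ℝ) ^ 3 * tau q (cv ν B) (cv ν B) (cv ν B)) * (1 / (i : ℝ)) ^ 3 := by
    intro i hi
    have hi' : (0 : ℝ) < i := by exact_mod_cast hi
    have hAi : Ample (A ^ i) := ample_pow _ i hi hA
    have hAE : Ample (A ^ i * E) := by
      have h2 : Ample (A ^ i * B ^ j) := ample_mul h.var _ _ hAi (ample_pow _ j hj hB)
      refine ample_congr hν _ _ h2 ?_
      rw [cv_mul, cv_mul, cv_pow ν B, hcE]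
    have h2 := H32.TK.tau_mono h hcy hAi hE hAE
    rw [cv_mul, cv_pow, hcE] at h2
    have h3 : tau q ((i : ℝ) • cv ν A + (j : ℝ) • cv ν B) ((i : ℝ) • cv ν A + (j : ℝ) • cv ν B)
        ((i : ℝ) • cv ν A + (j : ℝ) • cv ν B) - tau q ((i : ℝ) • cv ν A) ((i : ℝ) • cv ν A) ((i : ℝ) • cv ν A) =
        (i : ℝ) ^ 3 * ((3 * (j * tau q (cv ν A) (cv ν A) (cv ν B))) * (1 / (i : ℝ)) +
      (3 * ((j : ℝ) ^ 2 * tau q (cv ν A) (cv ν B) (cv ν B))) * (1 / (i : ℝ)) ^ 2 +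
      ((j : ℝ) ^ 3 * tau q (cv ν B) (cv ν B) (cv ν B)) * (1 / (i : ℝ)) ^ 3) := by
      unfold tau
      simp only [Pi.add_apply, Pi.smul_apply, smul_eq_mul]
      field_simp
      ring
    have h4 : 0 ≤ (i : ℝ) ^ 3 * ((3 * (j * tau q (cv ν A) (cv ν A) (cv ν B))) * (1 / (i : ℝ)) +
      (3 * ((j : ℝ) ^ 2 * tau q (cv ν A) (cv ν B) (cv ν B))) * (1 / (i : ℝ)) ^ 2 +
      ((j : ℝ) ^ 3 * tau q (cv ν B) (cv ν B) (cv ν B)) * (1 / (i : ℝ)) ^ 3) := by
      rw [← h3]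
      linarith
    exact nonneg_of_mul_nonneg_right h4 (by positivity)
  have h2 := lin_nonneg h1
  have h3 : 0 ≤ (j : ℝ) * tau q (cv ν A) (cv ν A) (cv ν B) := by linarith
  exact nonneg_of_mul_nonneg_right h3 hj'

/-- sums of nef and ample classes -/
theorem nef_add_amp (ho : IsOpen (AmpV ν)) {u v : V 2} (hu : u ∈ closure (AmpV ν)) (hv : v ∈ AmpV ν) :
    u + v ∈ AmpV ν := by
  have h1 : IsOpen {w : V 2 | u + v - w ∈ AmpV ν} :=
    ho.preimage (continuous_const.sub continuous_id)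
  have h2 : u ∈ {w : V 2 | u + v - w ∈ AmpV ν} := by
    show u + v - u ∈ AmpV ν
    rwa [add_sub_cancel_left]
  obtain ⟨w, hw1, hw2⟩ := mem_closure_iff.1 hu _ h1 h2
  have h3 : u + v = w + (u + v - w) := by abel
  rw [h3]
  exact ampV_add hw2 hw1

theorem amp_of (h : Hyp X) (hν : Num ν) {D : Cart X} (hD : cv ν D ∈ AmpV ν) : Ample D := by
  obtain ⟨b, hb⟩ := Pool.Agent.H36.TU.exists_bas hν
  have h1 : toR (cz ν D) ∈ AmpV ν := by rwa [toR_cz]
  have h2 := (amp_bas h.var hν hb (cz ν D)).2 h1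
  refine ample_congr hν _ _ h2 ?_
  rw [cv_bas hb, toR_cz]

theorem nef_nat {u : V 2} (hu : u ∈ closure (AmpV ν)) (n : ℕ) (hn : 1 ≤ n) : (n : ℝ) • u ∈ closure (AmpV ν) := by
  have h1 : Continuous fun w : V 2 => (n : ℝ) • w := continuous_const_smul _
  exact map_mem_closure h1 hu fun w hw => ampV_smul (by exact_mod_cast hn) hw

/-- `A² N ≥ 0` -/
theorem tau_aan [CharZero k] (h : Hyp X) (hν : Num ν) (hcy : CY q l c ν) {A B : Cart X} (hA : Ample A)
    (hB : cv ν B ∈ closure (AmpV ν)) : 0 ≤ tau q (cv ν A) (cv ν A) (cv ν B) := by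
  have ho := Pool.Agent.H36.TU.ampV_open h.var hν
  obtain ⟨b, hb⟩ := Pool.Agent.H36.TU.exists_bas hν
  have h1 : ∀ n : ℕ, 1 ≤ n → 0 ≤ tau q (cv ν A) (cv ν A) (cv ν B) + tau q (cv ν A) (cv ν A) (cv ν A) * (1 / (n : ℝ)) := by
    intro n hn
    have hn' : (0 : ℝ) < n := by exact_mod_cast hn
    have hD : Ample (B ^ n * A) := by
      refine amp_of h hν ?_
      rw [cv_mul, cv_pow]
      exact nef_add_amp ho (nef_nat hB n hn) (ampV_cv ν A hA)
    have h2 := tau_aab h hν hcy hA hD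
    rw [cv_mul, cv_pow, tau_add3, tau_smul3] at h2
    have h3 : (n : ℝ) * (tau q (cv ν A) (cv ν A) (cv ν B) + tau q (cv ν A) (cv ν A) (cv ν A) * (1 / (n : ℝ))) =
        n * tau q (cv ν A) (cv ν A) (cv ν B) + tau q (cv ν A) (cv ν A) (cv ν A) := by field_simp
    rw [← h3] at h2
    exact nonneg_of_mul_nonneg_right h2 hn'
  have h2 : Tendsto (fun n : ℕ => tau q (cv ν A) (cv ν A) (cv ν B) + tau q (cv ν A) (cv ν A) (cv ν A) * (1 / (n : ℝ)))
      atTop (nhds (tau q (cv ν A) (cv ν A) (cv ν B) + tau q (cv ν A) (cv ν A) (cv ν A) * 0)) :=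
    tendsto_const_nhds.add (tendsto_const_nhds.mul tendsto_one_div_atTop_nhds_zero_nat)
  rw [mul_zero, add_zero] at h2
  exact ge_of_tendsto h2 (eventually_atTop.2 ⟨1, h1⟩)

/-- `N² A ≥ 0` -/
theorem tau_nna [CharZero k] (h : Hyp X) (hν : Num ν) (hcy : CY q l c ν) {A B : Cart X} (hA : Ample A)
    (hB : cv ν B ∈ closure (AmpV ν)) : 0 ≤ tau q (cv ν B) (cv ν B) (cv ν A) := by
  have ho := Pool.Agent.H36.TU.ampV_open h.var hν
  have h1 : ∀ n : ℕ, 1 ≤ n → 0 ≤ tau q (cv ν B) (cv ν B) (cv ν A) +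
      2 * tau q (cv ν A) (cv ν A) (cv ν B) * (1 / (n : ℝ)) + tau q (cv ν A) (cv ν A) (cv ν A) * (1 / (n : ℝ)) ^ 2 := by
    intro n hn
    have hn' : (0 : ℝ) < n := by exact_mod_cast hn
    have hD : Ample (B ^ n * A) := by
      refine amp_of h hν ?_
      rw [cv_mul, cv_pow]
      exact nef_add_amp ho (nef_nat hB n hn) (ampV_cv ν A hA)
    have h2 := tau_aab h hν hcy hD hA
    rw [cv_mul, cv_pow] at h2
    have h3 : tau q ((n : ℝ) • cv ν B + cv ν A) ((n : ℝ) • cv ν B + cv ν A) (cv ν A) =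
        (n : ℝ) ^ 2 * (tau q (cv ν B) (cv ν B) (cv ν A) +
      2 * tau q (cv ν A) (cv ν A) (cv ν B) * (1 / (n : ℝ)) + tau q (cv ν A) (cv ν A) (cv ν A) * (1 / (n : ℝ)) ^ 2) := by
      unfold tau
      simp only [Pi.add_apply, Pi.smul_apply, smul_eq_mul]
      field_simp
      ring
    rw [h3] at h2
    exact nonneg_of_mul_nonneg_right h2 (by positivity)
  have h2 : Tendsto (fun n : ℕ => tau q (cv ν B) (cv ν B) (cv ν A) +
      2 * tau q (cv ν A) (cv ν A) (cv ν B) * (1 / (n : ℝ)) + tau q (cv ν A) (cv ν A) (cv ν A) * (1 / (n : ℝ)) ^ 2)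
      atTop (nhds (tau q (cv ν B) (cv ν B) (cv ν A) +
      2 * tau q (cv ν A) (cv ν A) (cv ν B) * 0 + tau q (cv ν A) (cv ν A) (cv ν A) * 0 ^ 2)) :=
    (tendsto_const_nhds.add (tendsto_const_nhds.mul tendsto_one_div_atTop_nhds_zero_nat)).add
      (tendsto_const_nhds.mul (tendsto_one_div_atTop_nhds_zero_nat.pow 2))
  have h3 : tau q (cv ν B) (cv ν B) (cv ν A) +
      2 * tau q (cv ν A) (cv ν A) (cv ν B) * 0 + tau q (cv ν A) (cv ν A) (cv ν A) * 0 ^ 2 =
      tau q (cv ν B) (cv ν B) (cv ν A) := by ring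
  rw [h3] at h2
  exact ge_of_tendsto h2 (eventually_atTop.2 ⟨1, h1⟩)

/-- `N³ = N² H = 0` implies `N² = 0` -/
theorem nn_zero {H N : V 2} (hH : tau q H H H ≠ 0) (hN : N ≠ 0) (h1 : tau q N N N = 0) (h2 : tau q N N H = 0) (u : V 2) :
    tau q N N u = 0 := by
  by_cases hd : H 0 * N 1 - H 1 * N 0 = 0
  · exfalso
    have h3 : ∃ t : ℝ, N = t • H := by
      by_cases h0 : H 0 = 0
      · have h1' : H 1 ≠ 0 := by
          intro h4
          apply hH
          unfold tau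
          rw [h0, h4]
          ring
        refine ⟨N 1 / H 1, ?_⟩
        funext i
        fin_cases i
        · show N 0 = N 1 / H 1 * H 0
          rw [h0] at hd ⊢
          have h5 : H 1 * N 0 = 0 := by linarith
          rw [(mul_eq_zero.1 h5).resolve_left h1', mul_zero]
        · show N 1 = N 1 / H 1 * H 1
          field_simp
      · refine ⟨N 0 / H 0, ?_⟩
        funext i
        fin_cases i
        · show N 0 = N 0 / H 0 * H 0
          field_simp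
        · show N 1 = N 0 / H 0 * H 1
          field_simp
          linarith
    obtain ⟨t, rfl⟩ := h3
    rw [tau_smul, tau_smul2, tau_smul3] at h1
    have ht : t ≠ 0 := by
      rintro rfl
      exact hN (zero_smul _ _)
    exact mul_ne_zero ht (mul_ne_zero ht (mul_ne_zero ht hH)) h1
  · have h3 : u = ((u 0 * N 1 - u 1 * N 0) / (H 0 * N 1 - H 1 * N 0)) • H +
        ((H 0 * u 1 - H 1 * u 0) / (H 0 * N 1 - H 1 * N 0)) • N := by
      funext i
      fin_cases i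
      · show u 0 = _ * H 0 + _ * N 0
        rw [div_mul_eq_mul_div, div_mul_eq_mul_div, ← add_div, eq_div_iff hd]
        ring
      · show u 1 = _ * H 1 + _ * N 1
        rw [div_mul_eq_mul_div, div_mul_eq_mul_div, ← add_div, eq_div_iff hd]
        ring
    rw [h3, tau_add3, tau_smul3, tau_smul3, h1, h2]
    ring

end Pool.Agent.H20.TK
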