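import Pool.Agent.H20.TK.K0
import Pool.Agent.H20.TK.Nef
import Pool.Agent.H39.TK.B2C
import Pool.Agent.H32.TK.B1H
import Pool.Agent.H36.TK.Nb

/-!
# [H20 TK K1] THEOREM K, second part: effectivity

`eff_of`: an integral nef class `N` which is not in the interior of the effective cone, with `l(N) > 0`, has an effective
multiple.  `k1`: the final statement.
-/

set_option autoImplicit false

open Filter

namespace Pool.Agent.H20.TK

open Pool.Agent.H57.KM Pool.Agent.H54.RV Pool.Agent.H83.TU Pool.Agent.H83.TK Pool.Agent.H39.TK Pool.Agent.H32.TK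

variable {k K : Type} [Field k] [Field K] [Algebra k K] {X : Mod k K}
  {ν : Cart X →* Multiplicative (Fin 2 → ℤ)} {q : Fin 4 → ℝ} {l : V 2 →ₗ[ℝ] ℝ} {c : ℝ}

/-- **effectivity** -/
theorem eff_of [CharZero k] [IsAlgClosed k] [T0Space X.P] (h : Hyp X) (hsm : ∀ x, H39.TU.SmP X x) (hν : Num ν)
    (hcy : CY q l c ν) {N : Fin 2 → ℤ} (hN : toR N ∈ closure (AmpV ν)) (hNe : toR N ∉ interior (EffV ν))
    (hl : 0 < l (toR N)) : ∃ n : ℕ, 1 ≤ n ∧ ∃ D : Cart X, Effective D ∧ cv ν D = (n : ℝ) • toR N := by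
  have ho := Pool.Agent.H36.TU.ampV_open h.var hν
  have hSP := serP k
  have hNA : toR N ∉ AmpV ν := fun h1 => hNe (interior_maximal (ampV_effV h.var hν) ho h1)
  have hN0 : N ≠ 0 := by
    rintro rfl
    rw [toR_zero, map_zero] at hl
    exact lt_irrefl _ hl
  obtain ⟨b, hb⟩ := Pool.Agent.H36.TU.exists_bas hν
  obtain ⟨A, hA⟩ := h.amp
  have hA' : Ample (bas b (cz ν A)) := by
    rw [amp_bas h.var hν hb, toR_cz]
    exact ampV_cv ν A hA
  obtain ⟨n, hn, hBn⟩ := bpf_exists h.var _ hA'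
  obtain ⟨H, hHdef⟩ : ∃ H, H = n • cz ν A := ⟨_, rfl⟩
  have hHn : bas b H = bas b (cz ν A) ^ n := by rw [hHdef, bas_nsmul]
  have hH : Ample (bas b H) := by
    rw [hHn]
    exact ample_pow _ n hn hA'
  have hB : Bpf (bas b H) := by
    rw [hHn]
    exact hBn
  have hNNN := Pool.Agent.H36.TK.nb h hν hcy N hN hNe
  obtain ⟨B, hBc⟩ := cv_surj hν N
  have hcB : cv ν B = toR N := hBc
  have h1 : 0 ≤ tau q (toR N) (toR N) (toR H) := by
    have h2 := tau_nna h hν hcy hH (B := B) (by rwa [hcB])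
    rwa [hcB, cv_bas hb] at h2
  rcases h1.eq_or_lt with h1 | h1
  · have hHH : tau q (toR H) (toR H) (toR H) ≠ 0 := by
      have h2 := H32.TK.tau_pos h hcy hH
      rw [cv_bas hb] at h2
      exact h2.ne'
    have hNr : toR N ≠ 0 := fun h2 => hN0 (toR_inj (by rw [h2, toR_zero]))
    exact b1 h hsm hν hcy hN0 hN hNA (nn_zero hHH hNr hNNN h1.symm) hl
  · obtain ⟨n, D, h2, h3, h4⟩ := b2 h hν hb hcy hSP ho hH hB hN hNe hNNN h1 hl
    exact ⟨n, h2, D, h3, h4⟩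

/-- **THEOREM K** -/
theorem k1 [CharZero k] [IsAlgClosed k] [T0Space X.P] (h : Hyp X) (hsm : ∀ x, H39.TU.SmP X x) (Γ : Subgroup (MAut X))
    (hν : Num ν) (hcy : CY q l c ν) :
    ((∃ u w : Fin 2 → ℤ, closure (AmpV ν) = {v | ∃ a c : ℝ, 0 ≤ a ∧ 0 ≤ c ∧ v = a • toR u + c • toR w}) ∧
      FundV (autN Γ ν) (closure (AmpV ν)) ∧
      (FundV (autN Γ ν) (closure (AmpV ν) ∩ EffV ν) ↔ closure (AmpV ν) ⊆ EffV ν)) ∧
    (∀ N : Fin 2 → ℤ, toR N ∈ closure (AmpV ν) → toR N ∉ interior (EffV ν) → 0 < l (toR N) →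
      ∃ n : ℕ, 1 ≤ n ∧ ∃ D : Cart X, Effective D ∧ cv ν D = (n : ℝ) • toR N) ∧
    ((∀ p ∈ closure (AmpV ν), p ≠ 0 → p ∉ interior (EffV ν) → 0 < l p) →
      closure (AmpV ν) ⊆ EffV ν ∧ FundV (autN Γ ν) (closure (AmpV ν) ∩ EffV ν)) := by
  have hk0 := k0 h hsm Γ hν hcy
  have hk1 : ∀ N : Fin 2 → ℤ, toR N ∈ closure (AmpV ν) → toR N ∉ interior (EffV ν) → 0 < l (toR N) →
      ∃ n : ℕ, 1 ≤ n ∧ ∃ D : Cart X, Effective D ∧ cv ν D = (n : ℝ) • toR N :=
    fun N h1 h2 h3 => eff_of h hsm hν hcy h1 h2 h3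
  refine ⟨hk0, hk1, fun hpos => ?_⟩
  obtain ⟨⟨u, w, huw⟩, -, hiff⟩ := hk0
  have key : ∀ s : Fin 2 → ℤ, toR s ∈ closure (AmpV ν) → toR s ∈ EffV ν := by
    intro s hs
    by_cases h1 : toR s ∈ interior (EffV ν)
    · exact interior_subset h1
    · by_cases h2 : toR s = 0
      · rw [h2]
        exact effV_zero ν
      · obtain ⟨n, hn, D, hD, hcv⟩ := hk1 s hs h1 (hpos _ hs h2 h1)
        have hn0 : (0 : ℝ) < n := by exact_mod_cast hn
        have h3 : toR s = (n : ℝ)⁻¹ • cv ν D := by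
          rw [hcv, smul_smul, inv_mul_cancel₀ hn0.ne', one_smul]
        rw [h3]
        exact effV_smul (inv_pos.2 hn0).le (effV_cv ν D hD)
  have hu : toR u ∈ EffV ν := key u (by
    rw [huw]
    exact ⟨1, 0, zero_le_one, le_rfl, by rw [one_smul, zero_smul, add_zero]⟩)
  have hw : toR w ∈ EffV ν := key w (by
    rw [huw]
    exact ⟨0, 1, le_rfl, zero_le_one, by rw [one_smul, zero_smul, zero_add]⟩)
  have hsub : closure (AmpV ν) ⊆ EffV ν := by
    rw [huw]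
    rintro _ ⟨a, c, ha, hc, rfl⟩
    exact effV_add (effV_smul ha hu) (effV_smul hc hw)
  exact ⟨hsub, hiff.2 hsub⟩

end Pool.Agent.H20.TK
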