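import Pool.Agent.H20.TK.Van
import Pool.Agent.H36.TK.Cub
import Pool.Agent.H24.TK.Frm

/-!
# [H20 TK Vol] THEOREM K: the volume of an ample divisor is `tau D D D / 6`, and it is positive
-/

set_option autoImplicit false

open Filter

namespace Pool.Agent.H20.TK

open Pool.Agent.H57.KM Pool.Agent.H54.RV Pool.Agent.H83.TU Pool.Agent.H83.TK Pool.Agent.H39.TK Pool.Agent.H32.TK

variable {k K : Type} [Field k] [Field K] [Algebra k K] {X : Mod k K}

theorem grow3 (hX : IsVar X) (hg : ∃ g, Gen X g) [CharZero k] (htr : Algebra.trdeg k K = 3) (A : Cart X)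
    (hA : Ample A) (hfin : ∀ D : Cart X, Module.Finite k (secL D 1)) (C : ℝ) :
    ∃ n : ℕ, 1 ≤ n ∧ C * n < (h0 (A ^ n) 1 : ℝ) := by
  obtain ⟨g, hg⟩ := hg
  obtain ⟨s, hs⟩ := exists_isTranscendenceBasis k K
  have h2 : Cardinal.mk s = 3 := by rw [hs.cardinalMk_eq_trdeg, htr]
  have h2' : Cardinal.mk s = Cardinal.mk (Fin 3) := by rw [h2]; simp
  obtain ⟨e⟩ := Cardinal.eq.1 h2'
  obtain ⟨z, hz⟩ : ∃ z : Fin 2 → K, z = fun i => ((e.symm (Fin.castSucc i) : s) : K) := ⟨_, rfl⟩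
  have hzi : AlgebraicIndependent k z := by
    rw [hz]
    exact hs.1.comp (fun i => e.symm (Fin.castSucc i)) (e.symm.injective.comp (Fin.castSucc_injective 2))
  have hUF : UF X := uf_all hX
  choose m₀ hm₀ using fun i => hUF A {g} (z i) hA (fun x hx => by
    rw [Finset.mem_singleton.1 hx, hg.top]
    exact Algebra.mem_top)
  obtain ⟨m, hm⟩ : ∃ m, m = max (max (m₀ 0) (m₀ 1)) 1 := ⟨_, rfl⟩
  have hm1 : 1 ≤ m := by rw [hm]; exact le_max_right _ _
  have hmi : ∀ i, m₀ i ≤ m := by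
    intro i
    rw [hm]
    fin_cases i
    · exact (le_max_left _ _).trans (le_max_left _ _)
    · exact (le_max_right _ _).trans (le_max_left _ _)
  choose t ht1 ht2 ht3 using fun i => hm₀ i m (hmi i)
  have ht0 : ∀ i, t i ≠ 0 := fun i => left_ne_zero_of_mul (ht3 i g (Finset.mem_singleton_self g)).1
  have key : ∀ (i : Fin 2) (j a : ℕ), a ≤ j → ∀ y, t i ^ j * z i ^ a * A.eq y ^ (m * j) ∈ X.O y := by
    intro i j a ha y
    have e1 : t i ^ j * z i ^ a * A.eq y ^ (m * j) =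
        (t i * A.eq y ^ m) ^ (j - a) * (t i * z i * A.eq y ^ m) ^ a := by
      obtain ⟨b, rfl⟩ : ∃ b, j = a + b := ⟨j - a, by omega⟩
      rw [Nat.add_sub_cancel_left, pow_mul, mul_pow, mul_pow, mul_pow, pow_add, pow_add]
      ring
    rw [e1]
    exact (X.O y).mul_mem ((X.O y).pow_mem (ht1 i y) _) ((X.O y).pow_mem (ht2 i y) _)
  have hbig : ∀ j : ℕ, (j + 1) ^ 2 ≤ h0 (A ^ (2 * m * j)) 1 := by
    intro j
    have hfin' := hfin (A ^ (2 * m * j))
    obtain ⟨c, hc⟩ : ∃ c, c = t 0 ^ j * t 1 ^ j := ⟨_, rfl⟩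
    have hc0 : c ≠ 0 := by rw [hc]; exact mul_ne_zero (pow_ne_zero _ (ht0 0)) (pow_ne_zero _ (ht0 1))
    have hmem : ∀ ab : Fin (j + 1) × Fin (j + 1),
        c * (z 0 ^ (ab.1 : ℕ) * z 1 ^ (ab.2 : ℕ)) ∈ secL (A ^ (2 * m * j)) 1 := by
      intro ab y
      rw [pow_one, pow_eq]
      have h3 := (X.O y).mul_mem (key 0 j ab.1 (by omega) y) (key 1 j ab.2 (by omega) y)
      have e1 : c * (z 0 ^ (ab.1 : ℕ) * z 1 ^ (ab.2 : ℕ)) * A.eq y ^ (2 * m * j) =
          t 0 ^ j * z 0 ^ (ab.1 : ℕ) * A.eq y ^ (m * j) * (t 1 ^ j * z 1 ^ (ab.2 : ℕ) * A.eq y ^ (m * j)) := by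
        rw [hc]
        have e2 : 2 * m * j = m * j + m * j := by ring
        rw [e2, pow_add]
        ring
      rw [e1]
      exact h3
    have hli : LinearIndependent k fun ab : Fin (j + 1) × Fin (j + 1) =>
        (⟨c * (z 0 ^ (ab.1 : ℕ) * z 1 ^ (ab.2 : ℕ)), hmem ab⟩ : secL (A ^ (2 * m * j)) 1) := by
      refine LinearIndependent.of_comp (secL (A ^ (2 * m * j)) 1).subtype ?_
      have h4 := (mono_indep z hzi j).map' (LinearMap.mulLeft k c) (by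
        rw [LinearMap.ker_eq_bot]
        exact mul_right_injective₀ hc0)
      exact h4
    have h5 := hli.fintype_card_le_finrank
    rw [Fintype.card_prod, Fintype.card_fin] at h5
    unfold h0
    calc (j + 1) ^ 2 = (j + 1) * (j + 1) := sq _
      _ ≤ _ := h5
  obtain ⟨j, hj⟩ := exists_nat_gt (max C 1 * (2 * m))
  have hj0 : (0 : ℝ) < j := lt_of_le_of_lt (by positivity) hj
  have hj1 : 1 ≤ j := by
    have : 0 < j := by exact_mod_cast hj0
    exact this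
  refine ⟨2 * m * j, Nat.mul_pos (Nat.mul_pos two_pos hm1) hj1, ?_⟩
  have h6 : (((j + 1) ^ 2 : ℕ) : ℝ) ≤ (h0 (A ^ (2 * m * j)) 1 : ℝ) := by exact_mod_cast hbig j
  refine lt_of_lt_of_le ?_ h6
  push_cast
  have h7 : C * (2 * m * j) ≤ max C 1 * (2 * m) * j := by
    have h8 : C * (2 * m * (j : ℝ)) ≤ max C 1 * (2 * m * j) :=
      mul_le_mul_of_nonneg_right (le_max_left _ _) (by positivity)
    linarith
  have h8 : max C 1 * (2 * m) * j ≤ (j : ℝ) * j := mul_le_mul_of_nonneg_right hj.le hj0.le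
  nlinarith



variable {ν : Cart X →* Multiplicative (Fin 2 → ℤ)} {q : Fin 4 → ℝ} {l : V 2 →ₗ[ℝ] ℝ} {c : ℝ}

theorem h0_n (D : Cart X) (n : ℕ) : h0 D n = h0 (D ^ n) 1 := by
  unfold h0
  rw [Pool.Agent.H24.TK.secL_pow]

/-- the numbers of sections of the multiples of an ample divisor -/
theorem chi_mul (hcy : CY q l c ν) (A : Cart X) (hA : Ample A) : ∃ n₀ : ℕ, ∀ n : ℕ, n₀ ≤ n →
    (h0 A n : ℝ) = tau q (cv ν A) (cv ν A) (cv ν A) / 6 * n ^ 3 + l (cv ν A) * n + c := by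
  obtain ⟨n₀, hn⟩ := hcy.ev 1 A hA
  refine ⟨n₀, fun n hn' => ?_⟩
  have h1 := hn n hn'
  rw [one_mul, cv_pow] at h1
  rw [h0_n, h1]
  unfold chi
  rw [tau_smul, tau_smul2, tau_smul3, map_smul, smul_eq_mul]
  ring

theorem vol_eq (hcy : CY q l c ν) (A : Cart X) (hA : Ample A) : vol A = tau q (cv ν A) (cv ν A) (cv ν A) / 6 := by
  obtain ⟨n₀, hn⟩ := chi_mul hcy A hA
  unfold vol
  apply Tendsto.limsup_eq
  obtain ⟨a, ha⟩ : ∃ a, a = tau q (cv ν A) (cv ν A) (cv ν A) / 6 := ⟨_, rfl⟩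
  obtain ⟨d, hd⟩ : ∃ d, d = l (cv ν A) := ⟨_, rfl⟩
  rw [← ha, ← hd] at hn
  rw [← ha]
  have h1 : Tendsto (fun n : ℕ => a + d * (1 / (n : ℝ)) ^ 2 + c * (1 / (n : ℝ)) ^ 3) atTop
      (nhds (a + d * 0 ^ 2 + c * 0 ^ 3)) := by
    have h2 : Tendsto (fun n : ℕ => 1 / (n : ℝ)) atTop (nhds 0) := tendsto_one_div_atTop_nhds_zero_nat
    exact ((h2.pow 2).const_mul d).const_add a |>.add ((h2.pow 3).const_mul c)
  have h3 : a + d * 0 ^ 2 + c * 0 ^ 3 = a := by ring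
  rw [h3] at h1
  refine h1.congr' ?_
  filter_upwards [eventually_ge_atTop (n₀ + 1)] with n hn'
  rw [hn n (by omega)]
  have hn0 : (n : ℝ) ≠ 0 := by
    have : 1 ≤ n := by omega
    positivity
  field_simp

theorem tau_pos [CharZero k] (h : Hyp X) (hcy : CY q l c ν) (hF : FinX X) (A : Cart X) (hA : Ample A) :
    0 < tau q (cv ν A) (cv ν A) (cv ν A) := by
  by_contra hcon
  push Not at hcon
  obtain ⟨n₀, hn⟩ := chi_mul hcy A hA
  obtain ⟨n, hn1, hn2⟩ := grow3 h.var h.gen h.tr A hA hF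
    (|l (cv ν A)| + |c| + ∑ i ∈ Finset.range n₀, (h0 (A ^ i) 1 : ℝ))
  have hnR : (1 : ℝ) ≤ n := by exact_mod_cast hn1
  have hsum : 0 ≤ ∑ i ∈ Finset.range n₀, (h0 (A ^ i) 1 : ℝ) :=
    Finset.sum_nonneg fun _ _ => Nat.cast_nonneg _
  have ha := abs_nonneg (l (cv ν A))
  have hc := abs_nonneg c
  rcases lt_or_ge n n₀ with h1 | h1
  · have h2 := Finset.single_le_sum (f := fun i => (h0 (A ^ i) 1 : ℝ)) (fun i _ => Nat.cast_nonneg _)
      (Finset.mem_range.2 h1)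
    nlinarith
  · have h2 := hn n h1
    rw [h0_n] at h2
    rw [h2] at hn2
    have h3 := le_abs_self (l (cv ν A))
    have h4 := le_abs_self c
    have h5 : tau q (cv ν A) (cv ν A) (cv ν A) / 6 * (n : ℝ) ^ 3 ≤ 0 :=
      mul_nonpos_of_nonpos_of_nonneg (by linarith) (by positivity)
    nlinarith

end Pool.Agent.H20.TK
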