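import Pool.Agent.H20.TK.K1
import Pool.Agent.H20.TS.CyH
import Pool.Agent.H20.TK.Vol

/-!
# [H20 TK K2] THEOREM K, final form: one numerical hypothesis on the ample divisors

`nef_eff`: nef classes with `l > 0` are effective.  `k2`: the hypothesis is that the Hilbert polynomials of the ample
divisors have no quadratic term and a positive linear term.
-/

set_option autoImplicit false

open Filter

namespace Pool.Agent.H20.TK

open Pool.Agent.H57.KM Pool.Agent.H54.RV Pool.Agent.H83.TU Pool.Agent.H83.TK Pool.Agent.H39.TK Pool.Agent.H32.TK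

variable {k K : Type} [Field k] [Field K] [Algebra k K] {X : Mod k K}
  {ν : Cart X →* Multiplicative (Fin 2 → ℤ)} {q : Fin 4 → ℝ} {l : V 2 →ₗ[ℝ] ℝ} {c : ℝ}

theorem nef_eff [CharZero k] [IsAlgClosed k] [T0Space X.P] (h : Hyp X) (hsm : ∀ x, H39.TU.SmP X x) (hν : Num ν)
    (hcy : CY q l c ν) {p : V 2} (hp : p ∈ closure (AmpV ν)) (hl : 0 < l p) : p ∈ EffV ν := by
  have ho := Pool.Agent.H36.TU.ampV_open h.var hν
  obtain ⟨⟨⟨u, w, huw⟩, -, -⟩, hk, -⟩ := k1 h hsm ⊥ hν hcy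
  have hpos : ∀ v ∈ closure (AmpV ν), 0 ≤ l v := by
    have hcl : IsClosed {v : V 2 | 0 ≤ l v} :=
      isClosed_le continuous_const (LinearMap.continuous_of_finiteDimensional l)
    refine closure_minimal (s := AmpV ν) ?_ hcl
    rintro _ ⟨m, c, D, hc, hD, rfl⟩
    show 0 ≤ l _
    rw [map_sum]
    refine Finset.sum_nonneg fun i _ => ?_
    rw [map_smul]
    exact mul_nonneg (hc i).le (hcy.pos _ (hD i)).le
  have key : ∀ s : Fin 2 → ℤ, toR s ∈ closure (AmpV ν) → 0 < l (toR s) → toR s ∈ EffV ν := by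
    intro s hs hls
    by_cases h1 : toR s ∈ interior (EffV ν)
    · exact interior_subset h1
    · obtain ⟨n, hn, D, hD, hcv⟩ := hk s hs h1 hls
      have hn0 : (0 : ℝ) < n := by exact_mod_cast hn
      have h3 : toR s = (n : ℝ)⁻¹ • cv ν D := by
        rw [hcv, smul_smul, inv_mul_cancel₀ hn0.ne', one_smul]
      rw [h3]
      exact effV_smul (inv_pos.2 hn0).le (effV_cv ν D hD)
  have hu : toR u ∈ closure (AmpV ν) := by
    rw [huw]
    exact ⟨1, 0, zero_le_one, le_rfl, by rw [one_smul, zero_smul, add_zero]⟩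
  have hw : toR w ∈ closure (AmpV ν) := by
    rw [huw]
    exact ⟨0, 1, le_rfl, zero_le_one, by rw [one_smul, zero_smul, zero_add]⟩
  have hp' := hp
  rw [huw] at hp'
  obtain ⟨a, b, ha, hb, rfl⟩ := hp'
  rcases ha.eq_or_lt with ha0 | ha0
  · rw [← ha0, zero_smul, zero_add] at hl ⊢
    rcases hb.eq_or_lt with hb0 | hb0
    · rw [← hb0, zero_smul, map_zero] at hl
      exact absurd hl (lt_irrefl _)
    · rw [map_smul, smul_eq_mul] at hl
      exact effV_smul hb (key w hw (pos_of_mul_pos_right hl hb))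
  rcases hb.eq_or_lt with hb0 | hb0
  · rw [← hb0, zero_smul, add_zero] at hl ⊢
    rw [map_smul, smul_eq_mul] at hl
    exact effV_smul ha (key u hu (pos_of_mul_pos_right hl ha))
  -- the interior
  refine ampV_effV h.var hν ?_
  obtain ⟨A, hA⟩ := h.amp
  have hA1 := ampV_cv ν A hA
  have hA2 := subset_closure hA1
  rw [huw] at hA2
  obtain ⟨a', b', ha', hb', hv⟩ := hA2
  obtain ⟨ε, hε, h1, h2⟩ : ∃ ε : ℝ, 0 < ε ∧ ε * a' ≤ a ∧ ε * b' ≤ b := by
    refine ⟨min (a / (a' + 1)) (b / (b' + 1)), by positivity, ?_, ?_⟩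
    · calc min (a / (a' + 1)) (b / (b' + 1)) * a' ≤ a / (a' + 1) * a' :=
          mul_le_mul_of_nonneg_right (min_le_left _ _) ha'
        _ ≤ a / (a' + 1) * (a' + 1) := by gcongr; linarith
        _ = a := by field_simp
    · calc min (a / (a' + 1)) (b / (b' + 1)) * b' ≤ b / (b' + 1) * b' :=
          mul_le_mul_of_nonneg_right (min_le_right _ _) hb'
        _ ≤ b / (b' + 1) * (b' + 1) := by gcongr; linarith
        _ = b := by field_simp
  have h3 : (a - ε * a') • toR u + (b - ε * b') • toR w ∈ closure (AmpV ν) := by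
    rw [huw]
    exact ⟨_, _, sub_nonneg.2 h1, sub_nonneg.2 h2, rfl⟩
  have h4 := nef_add_amp ho h3 (ampV_smul hε hA1)
  have h5 : (a - ε * a') • toR u + (b - ε * b') • toR w + ε • cv ν A = a • toR u + b • toR w := by
    rw [hv]
    module
  rwa [h5] at h4

/-- **THEOREM K** -/
theorem k2 [CharZero k] [IsAlgClosed k] [T0Space X.P] (h : Hyp X) (hsm : ∀ x, H39.TU.SmP X x) (Γ : Subgroup (MAut X))
    (hν : Num ν) (hH : ∀ A : Cart X, Ample A → ∃ a b c : ℝ, 0 < b ∧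
      ∃ n₀ : ℕ, ∀ n : ℕ, n₀ ≤ n → (h0 A n : ℝ) = a * (n : ℝ) ^ 3 + b * n + c) :
    (∃ u w : Fin 2 → ℤ, closure (AmpV ν) = {v | ∃ a b : ℝ, 0 ≤ a ∧ 0 ≤ b ∧ v = a • toR u + b • toR w}) ∧
      FundV (autN Γ ν) (closure (AmpV ν)) ∧
      (FundV (autN Γ ν) (closure (AmpV ν) ∩ EffV ν) ↔ closure (AmpV ν) ⊆ EffV ν) ∧
      ∃ l : V 2 →ₗ[ℝ] ℝ, (∀ A : Cart X, Ample A → ∃ a c : ℝ, ∃ n₀ : ℕ, ∀ n : ℕ, n₀ ≤ n →
          (h0 A n : ℝ) = a * (n : ℝ) ^ 3 + l (cv ν A) * n + c) ∧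
        (∀ p ∈ closure (AmpV ν), 0 < l p → p ∈ EffV ν) ∧
        ((∀ p ∈ closure (AmpV ν), p ≠ 0 → p ∉ interior (EffV ν) → 0 < l p) →
          FundV (autN Γ ν) (closure (AmpV ν) ∩ EffV ν)) := by
  obtain ⟨q, l, c, hcy⟩ := H20.TS.cy_of h hν hH
  obtain ⟨h1, -, h3⟩ := k1 h hsm Γ hν hcy
  refine ⟨h1.1, h1.2.1, h1.2.2, l, fun A hA => ?_, fun p hp hl => nef_eff h hsm hν hcy hp hl, fun hp => (h3 hp).2⟩
  obtain ⟨n₀, hn⟩ := chi_mul hcy A hA
  exact ⟨_, _, n₀, hn⟩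

end Pool.Agent.H20.TK
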