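import Pool.Agent.H20.TK.Fil

/-!
# [H20 TK Low] THEOREM K: the lower bound

If `f m ≤ f (m - H) + g m` with equality for large classes in the direction `H`, if `f` and `g` are the polynomials `Q`
and `Q'` for these classes, and if `g ≤ Q'` in the filter, then `Q ≤ f` in the filter.
-/

set_option autoImplicit false

open Filter

namespace Pool.Agent.H20.TK

variable {L : Type} [AddCommGroup L] {H : L} {a b : L →+ ℝ}

/-- two polynomials which agree for all large natural numbers agree -/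
theorem poly_eq (P Q : Polynomial ℝ) (n₀ : ℕ) (h : ∀ n : ℕ, n₀ ≤ n → P.eval (n : ℝ) = Q.eval (n : ℝ)) : P = Q := by
  refine Polynomial.eq_of_infinite_eval_eq P Q ?_
  refine Set.Infinite.mono (s := Set.range fun n : ℕ => ((n₀ + n : ℕ) : ℝ)) ?_ ?_
  · rintro _ ⟨n, rfl⟩
    exact h _ (Nat.le_add_right _ _)
  · refine Set.infinite_range_of_injective fun m n hmn => ?_
    have h1 : ((n₀ + m : ℕ) : ℝ) = ((n₀ + n : ℕ) : ℝ) := hmn
    have h2 : n₀ + m = n₀ + n := by exact_mod_cast h1
    omega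

/-- the identity of the polynomials -/
theorem stp_id {G : L} {f g Q Q' : L → ℝ} (hf : Ev H f Q) (hQ : PL H Q) (hg : Ev H g Q') (hQ' : PL H Q')
    (hs : Stp H G f g) (m : L) : Q m = Q (m - G) + Q' m := by
  obtain ⟨P, hP⟩ := hQ m
  obtain ⟨P1, hP1⟩ := hQ (m - G)
  obtain ⟨P2, hP2⟩ := hQ' m
  obtain ⟨n1, h1⟩ := hf m
  obtain ⟨n2, h2⟩ := hf (m - G)
  obtain ⟨n3, h3⟩ := hg m
  obtain ⟨n4, h4⟩ := hs.2 m
  have key : P = P1 + P2 := by
    refine poly_eq _ _ (n1 + n2 + n3 + n4) fun n hn => ?_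
    have e1 := h1 n (by omega)
    have e2 := h2 n (by omega)
    have e3 := h3 n (by omega)
    have e4 := h4 n (by omega)
    have e5 : m + n • H - G = m - G + n • H := by abel
    rw [e5, e1, e2, e3] at e4
    have k1 := hP n
    have k2 := hP1 n
    have k3 := hP2 n
    rw [natCast_zsmul, Int.cast_natCast] at k1 k2 k3
    rw [Polynomial.eval_add, ← k1, ← k2, ← k3, e4]
  have k1 := hP 0
  have k2 := hP1 0
  have k3 := hP2 0
  rw [zero_smul, add_zero] at k1 k2 k3
  rw [k1, k2, k3, key, Polynomial.eval_add]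

theorem low (hc : Crd H a b) {f g Q Q' : L → ℝ} (hf : Ev H f Q) (hQ : PL H Q) (hg : SF H a b g Q')
    (hs : Stp H H f g) : ∀ᶠ m in FL a b, Q m ≤ f m := by
  have hid := stp_id hf hQ hg.ev hg.pol hs
  have hle := hg.le
  rw [ev_fl] at hle ⊢
  intro B
  obtain ⟨e, he, R, hR⟩ := hle B
  refine ⟨e, he, R, fun m hm => ?_⟩
  have step : ∀ j : ℕ, f (m + j • H) - Q (m + j • H) ≤ f m - Q m := by
    intro j
    induction j with
    | zero => rw [zero_smul, add_zero]
    | succ j ih =>
      have h1 := hs.1 (m + (j + 1) • H)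
      have h2 := hR _ (reg_line hc hm (j + 1))
      have h3 := hid (m + (j + 1) • H)
      have h4 : m + (j + 1) • H - H = m + j • H := by
        rw [succ_nsmul]
        abel
      rw [h4] at h1 h3
      linarith
  obtain ⟨n₀, h0⟩ := hf m
  have h1 := step n₀
  rw [h0 n₀ le_rfl, sub_self] at h1
  linarith

end Pool.Agent.H20.TK
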