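import Pool.Agent.H83.TK.Dim
import Pool.Agent.H32.TK.Amp

/-!
# [H20 TK Spt] THEOREM K: a prime Cartier divisor on a factorial threefold is a surface

`trdeg_spr`: `SPr X z S` implies `trdeg κ(z) = 2`.
-/

set_option autoImplicit false

namespace Pool.Agent.H20.TK

open Pool.Agent.H54.RV Pool.Agent.H83.TU Pool.Agent.H83.TK Pool.Agent.H32.TK

variable {k K : Type} [Field k] [Field K] [Algebra k K] {X : Mod k K}

theorem trdeg_congr_aux (A B : Subalgebra k K) [IsLocalRing A] [IsLocalRing B] (h : A = B) :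
    Algebra.trdeg k (IsLocalRing.ResidueField A) = Algebra.trdeg k (IsLocalRing.ResidueField B) := by
  subst h
  rfl

theorem trdeg_congr (x y : X.P) (h : X.O x = X.O y) :
    Algebra.trdeg k (X.kap x) = Algebra.trdeg k (X.kap y) := trdeg_congr_aux _ _ h

theorem pdiv_of_spr (h : Hyp X) {z : X.P} {S : Cart X} (hS : SPr X z S) :
    ∃ P : PDiv X, P.η ⤳ z ∧ z ⤳ P.η := by
  have hq : S.eq z ∈ X.O z := hS.eff z
  have hq0 : S.eq z ≠ 0 := S.ne z
  have hqu : ¬ Un (X.O z) (S.eq z) := hS.nun z specializes_rfl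
  have hdvd : ∀ a : X.O z, (⟨S.eq z, hq⟩ : X.O z) ∣ a ↔ ¬ Un (X.O z) (a : K) := by
    intro a
    constructor
    · rintro ⟨d, rfl⟩ hu
      have h1 : Un (X.O z) (S.eq z * (d : K)) := hu
      rw [un_mul_iff hq d.2] at h1
      exact hqu h1.1
    · intro hu
      refine ⟨⟨(a : K) / S.eq z, hS.ker z specializes_rfl a a.2 hu⟩, Subtype.ext ?_⟩
      show (a : K) = S.eq z * ((a : K) / S.eq z)
      field_simp
  have hp : Prime (⟨S.eq z, hq⟩ : X.O z) := by
    refine ⟨fun hh => hq0 (congrArg Subtype.val hh), fun hh => hqu ((un_iff hq).1 hh), fun a d hd => ?_⟩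
    rw [hdvd] at hd ⊢
    rw [hdvd]
    by_contra hcon
    push Not at hcon
    exact hd ((un_mul_iff a.2 d.2).2 hcon)
  obtain ⟨P, hPz, hPq, hP⟩ := pdiv_of_prime h z (S.eq z) hq hp
  refine ⟨P, hPz, ?_⟩
  obtain ⟨U, hU, hzU⟩ := h.var.chart z
  have hPU : P.η ∈ U := hPz.mem_open (h.var.op U hU) hzU
  refine spec_of_prime h.var U hU z P.η hPU (fun a ha hu => ?_) hzU
  have haz : a ∈ X.O z := (mem_sec U a).1 ha z hzU
  by_contra hn
  have h1 : a / S.eq z ∈ X.O z := hS.ker z specializes_rfl a haz hn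
  have h2 := (hP a haz hu.1).2 h1
  have h3 := (ord_eq_zero P.p a hu.1).2 ⟨(P.mem _).1 hu.2.1, (P.mem _).1 hu.2.2⟩
  omega

theorem trdeg_spr (h : Hyp X) {z : X.P} {S : Cart X} (hS : SPr X z S) : Algebra.trdeg k (X.kap z) = 2 := by
  obtain ⟨P, h1, h2⟩ := pdiv_of_spr h hS
  rw [← trdeg_pdiv h P]
  exact trdeg_congr _ _ (le_antisymm (h.var.spec _ _ h2) (h.var.spec _ _ h1)).symm

end Pool.Agent.H20.TK
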