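import Pool.Agent.H20.TK.Low

/-!
# [H20 TK Upp] THEOREM K: the upper bound

If `f m ≤ f (m - G) + g m` with equality for large classes in the direction `H`, `G` slightly beyond `p`
(`a G < 0 < b G`), if `f` and `g` are the polynomials `Q` and `Q'` for these classes, and if `g ≤ Q'` in the filter, then
`f ≤ Q` in the filter.
-/

set_option autoImplicit false

open Filter

namespace Pool.Agent.H20.TK

variable {L : Type} [AddCommGroup L] {H : L} {a b : L →+ ℝ}

/-- in a strip around the ray of `H` the number of sections is the polynomial -/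
theorem strip (hc : Crd H a b) {f Q : L → ℝ} (hf : Ev H f Q) (B : ℝ) :
    ∃ A : ℝ, ∀ m, |b m| ≤ B → A ≤ a m → f m = Q m := by
  classical
  choose n₀ hn₀ using hf
  have hfin := hc.fin (max 1 B)
  obtain ⟨N, hN⟩ : ∃ N : ℕ, ∀ M, |a M| ≤ max 1 B ∧ |b M| ≤ max 1 B → n₀ M ≤ N := by
    refine ⟨hfin.toFinset.sup n₀, fun M hM => ?_⟩
    exact Finset.le_sup (f := n₀) (hfin.mem_toFinset.2 hM)
  refine ⟨N + 1, fun m hbm ham => ?_⟩
  have ham0 : 0 ≤ a m := by
    have : (0 : ℝ) ≤ N := N.cast_nonneg
    linarith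
  obtain ⟨n, hn⟩ : ∃ n, n = ⌊a m⌋₊ := ⟨_, rfl⟩
  have h1 : (n : ℝ) ≤ a m := by rw [hn]; exact Nat.floor_le ham0
  have h2 : a m < n + 1 := by rw [hn]; exact Nat.lt_floor_add_one _
  have ea : a (m - n • H) = a m - n := by
    rw [map_sub, map_nsmul, hc.aH, nsmul_eq_mul, mul_one]
  have eb : b (m - n • H) = b m := by
    rw [map_sub, map_nsmul, hc.bH, smul_zero, sub_zero]
  have h3 : n₀ (m - n • H) ≤ N := by
    apply hN
    rw [ea, eb]
    refine ⟨?_, hbm.trans (le_max_right _ _)⟩
    rw [abs_of_nonneg (by linarith)]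
    exact le_trans (by linarith) (le_max_left _ _)
  have h4 : N ≤ n := by
    have : (N : ℝ) < n + 1 := by linarith
    have : N < n + 1 := by exact_mod_cast this
    omega
  have h5 := hn₀ (m - n • H) n (h3.trans h4)
  rwa [sub_add_cancel] at h5

theorem upp (hc : Crd H a b) {G : L} (ha : a G < 0) (hb : 0 < b G) {f g Q Q' : L → ℝ} (hf : Ev H f Q)
    (hQ : PL H Q) (hg : SF H a b g Q') (hs : Stp H G f g) : ∀ᶠ m in FL a b, f m ≤ Q m := by
  have hid := stp_id hf hQ hg.ev hg.pol hs
  have hle := hg.le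
  rw [ev_fl] at hle ⊢
  intro B
  obtain ⟨A, hA⟩ := strip hc hf (|B| + b G)
  obtain ⟨e, he, R, hR⟩ := hle 0
  obtain ⟨c, hcc⟩ : ∃ c, c = -a G / b G := ⟨_, rfl⟩
  have hc0 : 0 < c := by rw [hcc]; exact div_pos (by linarith) hb
  have haG : a G = -(c * b G) := by rw [hcc]; field_simp
  obtain ⟨κ, hκ⟩ : ∃ κ, κ = min 1 (c / 2) := ⟨_, rfl⟩
  have hκ0 : 0 < κ := by rw [hκ]; exact lt_min one_pos (half_pos hc0)
  have hκ1 : κ ≤ 1 := by rw [hκ]; exact min_le_left _ _
  have hκc : κ ≤ c / 2 := by rw [hκ]; exact min_le_right _ _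
  obtain ⟨e', he'⟩ : ∃ e', e' = min e (c / 2) := ⟨_, rfl⟩
  have he0 : 0 < e' := by rw [he']; exact lt_min he (half_pos hc0)
  have hee : e' ≤ e := by rw [he']; exact min_le_left _ _
  have hec : e' ≤ c / 2 := by rw [he']; exact min_le_right _ _
  obtain ⟨R', hR'⟩ : ∃ R', R' = (|R| + |A| + c * b G) / κ := ⟨_, rfl⟩
  have hcb : 0 ≤ c * b G := by positivity
  have hR0 := abs_nonneg R
  have hA0 := abs_nonneg A
  have hRR := le_abs_self R
  have hAA := le_abs_self A
  have hB0 := abs_nonneg B
  have hR'κ : κ * R' = |R| + |A| + c * b G := by rw [hR']; field_simp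
  have hR'0 : 0 ≤ R' := by rw [hR']; positivity
  have hR'1 : |R| + |A| + c * b G ≤ R' := by nlinarith
  refine ⟨e', he0, R', ?_⟩
  rintro m ⟨h1, h2, h3⟩
  -- the basic inequality
  have hbas : 0 ≤ b m → |R| + |A| + c * b G ≤ a m + c * b m := by
    intro hbm
    rw [abs_of_nonneg hbm] at h1
    rw [← hR'κ]
    have k1 : κ * R' ≤ κ * (a m + b m) := mul_le_mul_of_nonneg_left h3 hκ0.le
    by_cases ham : 0 ≤ a m
    · have k2 := mul_le_mul_of_nonneg_right hκ1 ham
      have k3 := mul_le_mul_of_nonneg_right hκc hbm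
      nlinarith
    · push Not at ham
      have k2 := mul_le_mul_of_nonneg_right hκc hbm
      have k3 := mul_le_mul_of_nonneg_right hec hbm
      nlinarith
  obtain ⟨i, hi⟩ : ∃ i, i = ⌊b m / b G⌋₊ := ⟨_, rfl⟩
  have ea : ∀ j : ℕ, a (m - j • G) = a m + j * (c * b G) := by
    intro j
    rw [map_sub, map_nsmul, haG, nsmul_eq_mul]
    ring
  have eb : ∀ j : ℕ, b (m - j • G) = b m - j * b G := by
    intro j
    rw [map_sub, map_nsmul, nsmul_eq_mul]
  have hreg : ∀ j : ℕ, j < i → m - j • G ∈ Reg a b e 0 R := by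
    intro j hj
    have hj1 : ((j + 1 : ℕ) : ℝ) ≤ b m / b G := by
      rw [hi] at hj
      have : j + 1 ≤ ⌊b m / b G⌋₊ := hj
      exact (Nat.le_floor_iff' (Nat.succ_ne_zero j)).1 this
    rw [le_div_iff₀ hb] at hj1
    push_cast at hj1
    have hj0 : (0 : ℝ) ≤ j := j.cast_nonneg
    have hjb : 0 ≤ (j : ℝ) * b G := by positivity
    have hbm : 0 ≤ b m := by nlinarith
    have hbj : 0 ≤ b m - j * b G := by nlinarith
    rw [abs_of_nonneg hbm] at h1
    have hb2 := hbas hbm
    refine ⟨?_, ?_, ?_⟩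
    · rw [ea, eb, abs_of_nonneg hbj]
      have k1 := mul_le_mul_of_nonneg_right hee hbj
      have k2 := mul_le_mul_of_nonneg_right hec hjb
      nlinarith
    · rw [eb]
      linarith
    · rw [ea, eb]
      by_cases hc1 : 1 ≤ c
      · nlinarith
      · push Not at hc1
        nlinarith
  have step : ∀ j : ℕ, j ≤ i → f m - Q m ≤ f (m - j • G) - Q (m - j • G) := by
    intro j
    induction j with
    | zero => intro _; rw [zero_smul, sub_zero]
    | succ j ih =>
      intro hj
      have k0 := ih (by omega)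
      have k1 := hs.1 (m - j • G)
      have k2 := hR _ (hreg j (by omega))
      have k3 := hid (m - j • G)
      have k4 : m - j • G - G = m - (j + 1) • G := by
        rw [succ_nsmul]
        abel
      rw [k4] at k1 k3
      linarith
  have hfin := step i le_rfl
  have hbase : f (m - i • G) = Q (m - i • G) := by
    by_cases hbm : 0 ≤ b m
    · have hi1 : (i : ℝ) ≤ b m / b G := by
        rw [hi]
        exact Nat.floor_le (div_nonneg hbm hb.le)
      have hi2 : b m / b G < i + 1 := by
        rw [hi]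
        exact Nat.lt_floor_add_one _
      rw [le_div_iff₀ hb] at hi1
      rw [div_lt_iff₀ hb] at hi2
      apply hA
      · rw [eb, abs_of_nonneg (by linarith)]
        linarith
      · rw [ea]
        have := hbas hbm
        nlinarith
    · push Not at hbm
      have hi0 : i = 0 := by
        rw [hi]
        exact Nat.floor_of_nonpos (div_nonpos_of_nonpos_of_nonneg hbm.le hb.le)
      rw [hi0, zero_smul, sub_zero]
      apply hA
      · rw [abs_of_neg hbm]
        have := le_abs_self B
        linarith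
      · linarith
  rw [hbase, sub_self] at hfin
  linarith

end Pool.Agent.H20.TK
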