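import Pool.Agent.H20.TK.Geo

/-!
# [H20 TK Van] THEOREM K: the step for the sections which vanish at a point, and for all sections

* `hv_eq`: if the residue field of `x` is `k` and `W` has a section which does not vanish at `x`, then the sections
  which vanish at `x` have codimension `1`.
* `piece_sf`: closed subvarieties of dimension `≤ 2` satisfy `SF`.
* `gy`, `gx`: the steps on `X`.
-/

set_option autoImplicit false

open Filter

namespace Pool.Agent.H20.TK

open Pool.Agent.H57.KM Pool.Agent.H54.RV Pool.Agent.H83.TU Pool.Agent.H83.TK Pool.Agent.H39.TK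

variable {k K : Type} [Field k] [Field K] [Algebra k K] {X : Mod k K}
  {ν : Cart X →* Multiplicative (Fin 2 → ℤ)} {H : Fin 2 → ℤ} {b : Fin 2 → Cart X} {p : V 2} {x y : V 2 →ₗ[ℝ] ℝ}

/-- the residue field of the point is the base field -/
theorem hv_eq [IsAlgClosed k] (hX : IsVar X) (z : X.P) (hz : Function.Surjective (algebraMap k (X.kap z)))
    (W : Cart X) (hf : Module.Finite k (secL W 1)) {s : K} (hs : Sec W 1 s) (hsz : z ∈ nz W 1 s) :
    hv z W + 1 = h0 W 1 := by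
  have hsz' : Un (X.O z) (s * W.eq z) := by
    have : Un (X.O z) (s * W.eq z ^ 1) := hsz
    rwa [pow_one] at this
  have halg : Algebra.trdeg k (X.kap z) = 0 := by
    have : Algebra.IsAlgebraic k (X.kap z) := ⟨fun w => by
      obtain ⟨a, rfl⟩ := hz w
      exact isAlgebraic_algebraMap a⟩
    exact trdeg_eq_zero
  have hle : secv z W ≤ secL W 1 := fun f hf => hf.1
  have hA : hv z W < h0 W 1 := by
    refine Submodule.finrank_lt_finrank_of_lt (lt_of_le_of_ne hle fun he => ?_)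
    have h1 : s ∈ secv z W := by
      rw [he]
      exact hs
    exact h1.2 hsz'
  have hpt : h0 (resD hX z W) 1 = 1 := h0_pt halg _ _
  have hfin : FiniteDimensional k (secL (resD hX z W) 1) := Module.finite_of_finrank_pos (by
    change 0 < h0 (resD hX z W) 1
    rw [hpt]
    exact one_pos)
  have h3 := LinearMap.finrank_range_add_finrank_ker (resS hX z W 1)
  have h4 := Submodule.finrank_le (LinearMap.range (resS hX z W 1))
  have h5 : Module.finrank k (LinearMap.ker (resS hX z W 1)) = hv z W := by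
    apply LinearEquiv.finrank_eq
    refine LinearEquiv.ofBijective
      ({ toFun := fun f => ⟨f.1.1, f.1.2, fun hu => by
            have h6 : resS hX z W 1 f.1 = 0 := f.2
            rw [resS_zero, pow_one] at h6
            exact h6 hu⟩
         map_add' := fun _ _ => rfl
         map_smul' := fun _ _ => rfl } : LinearMap.ker (resS hX z W 1) →ₗ[k] secv z W) ⟨?_, ?_⟩
    · intro f g hfg
      have h6 : (f.1.1 : K) = g.1.1 := congrArg (fun t : secv z W => (t : K)) hfg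
      exact Subtype.ext (Subtype.ext h6)
    · rintro ⟨f, hf1, hf2⟩
      refine ⟨⟨⟨f, hf1⟩, ?_⟩, rfl⟩
      rw [LinearMap.mem_ker, resS_zero, pow_one]
      exact hf2
  have h6 : Module.finrank k (secL (resD hX z W) 1) = 1 := hpt
  rw [h6] at h4
  rw [h5] at h3
  unfold h0 at hA ⊢
  omega

/-- closed subvarieties of dimension at most two -/
theorem piece_sf [CharZero k] [IsAlgClosed k] (h : Hyp X) (hν : Num ν) (hb : ∀ i, cv ν (b i) = Pi.single i 1)
    {α β : (Fin 2 → ℤ) →+ ℝ} (hc : Crd H α β) (hHA : toR H ∈ AmpV ν) (hpt : Pt H {m | toR m ∈ AmpV ν} α β)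
    (hsurf : ∀ ζ : X.P, Algebra.trdeg k (X.kap ζ) = 2 →
      ∃ Q, SF H α β (fun m => (h0 (resD h.var ζ (bas b m)) 1 : ℝ)) Q)
    (ζ : X.P) (htr : Algebra.trdeg k (X.kap ζ) < 3) :
    ∃ Q, SF H α β (fun m => (h0 (resD h.var ζ (bas b m)) 1 : ℝ)) Q := by
  by_cases h2 : Algebra.trdeg k (X.kap ζ) = 2
  · exact hsurf ζ h2
  · obtain ⟨n, hn⟩ := Cardinal.lt_aleph0.1 (htr.trans (by exact_mod_cast Cardinal.natCast_lt_aleph0 (n := 3)))
    have hn2 : n < 2 := by
      rw [hn] at htr h2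
      have h3 : n < 3 := by exact_mod_cast htr
      have h4 : n ≠ 2 := by
        rintro rfl
        exact h2 (by norm_num)
      omega
    have htr2 : Algebra.trdeg k (X.kap ζ) < 2 := by
      rw [hn]
      exact_mod_cast hn2
    have h3 := nl_piece (isVar_sub h.var ζ) ⟨_, gen_sub h.var ζ⟩ htr2 (resD h.var ζ)
      (fun A hA => res_ample _ _ _ hA) h.var h.amp hν hb
    obtain ⟨l, c, -, h4⟩ := nl_sf hc hHA hpt h3
    exact ⟨_, h4⟩

/-- the sum of the pieces -/
theorem sum_sf [CharZero k] [IsAlgClosed k] (h : Hyp X) (hν : Num ν) (hb : ∀ i, cv ν (b i) = Pi.single i 1)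
    {α β : (Fin 2 → ℤ) →+ ℝ} (hc : Crd H α β) (hHA : toR H ∈ AmpV ν) (hpt : Pt H {m | toR m ∈ AmpV ν} α β)
    (hsurf : ∀ ζ : X.P, Algebra.trdeg k (X.kap ζ) = 2 →
      ∃ Q, SF H α β (fun m => (h0 (resD h.var ζ (bas b m)) 1 : ℝ)) Q)
    {r : ℕ} (ζ : Fin r → X.P) (c : Fin r → ℕ) (htr : ∀ i, Algebra.trdeg k (X.kap (ζ i)) < 3) :
    ∃ Q, SF H α β (fun m => ∑ i, (h0 (resD h.var (ζ i) (bas b (m + -(c i • H)))) 1 : ℝ)) Q := by
  choose Q hQ using fun i => piece_sf h hν hb hc hHA hpt hsurf (ζ i) (htr i)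
  exact ⟨_, sf_sum Finset.univ _ _ fun i _ => sf_shift (hQ i) (-(c i • H))⟩

/-- the step on `X` -/
theorem gy [CharZero k] [IsAlgClosed k] (h : Hyp X) (hν : Num ν) (hb : ∀ i, cv ν (b i) = Pi.single i 1)
    (hSP : SerP k) {α β : (Fin 2 → ℤ) →+ ℝ} (hc : Crd H α β) (hHA : toR H ∈ AmpV ν)
    (hpt : Pt H {m | toR m ∈ AmpV ν} α β)
    (hsurf : ∀ ζ : X.P, Algebra.trdeg k (X.kap ζ) = 2 →
      ∃ Q, SF H α β (fun m => (h0 (resD h.var ζ (bas b m)) 1 : ℝ)) Q)
    (G : Fin 2 → ℤ) (hG : 0 < h0 (bas b G) 1) :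
    ∃ g Q, SF H α β g Q ∧ Stp H G (fun m => (h0 (bas b m) 1 : ℝ)) g := by
  have hH : Ample (bas b H) := (amp_bas h.var hν hb H).2 hHA
  obtain ⟨r, ζ, c, h1, h2⟩ := step_of (H := H) h.var h.gen hSP (MonoidHom.id (Cart X)) hH G hG
  obtain ⟨Q, hQ⟩ := sum_sf h hν hb hc hHA hpt hsurf ζ c fun i => by
    rw [← h.tr]
    exact h1 i
  exact ⟨_, Q, hQ, h2⟩

/-- multiplication by a section -/
theorem hv_prin_inv (z : X.P) (D G : Cart X) (s : K) (hs : s ≠ 0) :
    hv z (D * (prin X s hs * G)⁻¹) = hv z (D * G⁻¹) := by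
  have key : ∀ w : X.P, (D * (prin X s hs * G)⁻¹).eq w = (D * G⁻¹).eq w * s⁻¹ := by
    intro w
    rw [mul_eq, inv_eq, mul_eq, mul_eq, inv_eq]
    show D.eq w * (s * G.eq w)⁻¹ = _
    rw [mul_inv]
    ring
  symm
  apply LinearEquiv.finrank_eq
  refine LinearEquiv.ofBijective
    ({ toFun := fun f => ⟨f.1 * s, fun w => by
          rw [key, pow_one]
          have h1 : f.1 * s * ((D * G⁻¹).eq w * s⁻¹) = f.1 * (D * G⁻¹).eq w ^ 1 := by
            field_simp
          rw [h1]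
          exact f.2.1 w, by
          rw [key]
          have h1 : f.1 * s * ((D * G⁻¹).eq z * s⁻¹) = f.1 * (D * G⁻¹).eq z := by
            field_simp
          rw [h1]
          exact f.2.2⟩
       map_add' := fun f g => Subtype.ext (by
         show (f.1 + g.1) * s = f.1 * s + g.1 * s
         ring)
       map_smul' := fun a f => Subtype.ext (by
         show (a • f.1) * s = a • (f.1 * s)
         rw [Algebra.smul_mul_assoc]) } : secv z (D * G⁻¹) →ₗ[k] secv z (D * (prin X s hs * G)⁻¹)) ⟨?_, ?_⟩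
  · intro f g hfg
    have h1 : f.1 * s = g.1 * s := congrArg (fun t : secv z (D * (prin X s hs * G)⁻¹) => (t : K)) hfg
    exact Subtype.ext (mul_right_cancel₀ hs h1)
  · rintro ⟨f, hf1, hf2⟩
    refine ⟨⟨f * s⁻¹, fun w => ?_, ?_⟩, Subtype.ext ?_⟩
    · have h1 := hf1 w
      rw [key, pow_one] at h1
      rw [pow_one]
      have h2 : f * s⁻¹ * (D * G⁻¹).eq w = f * ((D * G⁻¹).eq w * s⁻¹) := by ring
      rw [h2]
      exact h1
    · rw [key] at hf2
      have h2 : f * s⁻¹ * (D * G⁻¹).eq z = f * ((D * G⁻¹).eq z * s⁻¹) := by ring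
      rw [h2]
      exact hf2
    · show f * s⁻¹ * s = f
      rw [inv_mul_cancel_right₀ hs]

/-- the step on `X` for the sections which vanish at a point -/
theorem gx [CharZero k] [IsAlgClosed k] (h : Hyp X) (hν : Num ν) (hb : ∀ i, cv ν (b i) = Pi.single i 1)
    (hSP : SerP k) {α β : (Fin 2 → ℤ) →+ ℝ} (hc : Crd H α β) (hHA : toR H ∈ AmpV ν)
    (hpt : Pt H {m | toR m ∈ AmpV ν} α β)
    (hsurf : ∀ ζ : X.P, Algebra.trdeg k (X.kap ζ) = 2 →
      ∃ Q, SF H α β (fun m => (h0 (resD h.var ζ (bas b m)) 1 : ℝ)) Q)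
    (G : Fin 2 → ℤ) (hG : 0 < h0 (bas b G) 1) (z : X.P) :
    ∃ g Q, SF H α β g Q ∧ Stp H G (fun m => (hv z (bas b m) : ℝ)) g := by
  have hH : Ample (bas b H) := (amp_bas h.var hν hb H).2 hHA
  obtain ⟨hN, hF, hFZ, hS⟩ := hSP K X h.var h.gen _ hH
  obtain ⟨s, hs, hE⟩ := eff_of_pos _ hG
  obtain ⟨r, ζ, c, h1, h2, h3⟩ := chain_van h.var h.gen (bas b H) hH hN hF hFZ hS z _ hE
  obtain ⟨g, hgg⟩ := h.gen
  obtain ⟨Q, hQ⟩ := sum_sf h hν hb hc hHA hpt hsurf ζ c fun i => by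
    rw [← h.tr]
    exact trdeg_lt_eq h.var hgg _ (h3 i)
  have key2 : ∀ m : Fin 2 → ℤ, hv z (bas b m * (prin X s hs * bas b G)⁻¹) = hv z (bas b (m - G)) := by
    intro m
    rw [hv_prin_inv, bas_sub]
  refine ⟨_, Q, hQ, fun m => ?_, fun m => ?_⟩
  · have h4 := h1 (bas b m)
    rw [key2] at h4
    simp only [bas_shift] at h4
    show (hv z (bas b m) : ℝ) ≤ (hv z (bas b (m - G)) : ℝ) + ∑ i, _
    exact_mod_cast h4
  · obtain ⟨n₀, hn⟩ := h2 (bas b m)
    refine ⟨n₀, fun n hn' => ?_⟩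
    have h4 := hn n hn'
    rw [← bas_line, key2] at h4
    simp only [bas_shift] at h4
    show (hv z (bas b (m + n • H)) : ℝ) = (hv z (bas b (m + n • H - G)) : ℝ) + ∑ i, _
    exact_mod_cast h4

end Pool.Agent.H20.TK
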